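import Pool.Agent.R329.SX.Nbr2

set_option autoImplicit false

/-!
# The sum over non-parallel neighbours with the threshold `max 5 (κ + 2)`
-/

namespace Pool.Agent.R329.SX

open Finset Pool.Agent.H935R2.PS Pool.Agent.Y258 Pool.Agent.Y316.SD
open Pool.Agent.Y319.SX (pk x1)

open Classical in
/-- The core lemma: sums over dyadic boxes. -/
theorem coreY (κ C1 : ℕ) (hκ : 3 ≤ κ) : ∃ C : ℕ, ∀ q : ℕ, 2 ≤ q →
    ∀ (ι : Type) [Fintype ι] [DecidableEq ι], Fintype.card ι = κ → ∀ E K0 : ℕ,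
    (κ + 2) * uu q ≤ K0 → ∀ W : (ι → ℕ) → ℝ, 
    (∀ b ∈ Bx ι (La q), E < ∑ i, b i + K0 → W b ≤ 2 ^ κ ∧ W b ≤
      (C1 * (La q : ℝ) ^ (pk κ + κ)) * (1/2) ^ K0 + (C1 * (La q : ℝ) ^ C1) *
      (∑ a, ρ ^ (∑ i, b i + K0 - E) * ρ ^ (La q - b a))) →
    ∑ b ∈ (Bx ι (La q)).filter (fun b => E < ∑ i, b i + K0), W b ≤
      C * (La q : ℝ) ^ (κ - 2) * (uu q : ℝ) ^ 2 := by
  obtain ⟨C2, hC2⟩ := exists_nat_ge ((κ:ℝ) * (2 ^ κ * (4 * (C1 + C1 : ℕ)) ^ 2 + G4) + C1)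
  refine ⟨C2, ?_⟩
  intro q hq ι _ _ hι E K0 hK0 W hW
  set L := La q with hL
  set u := uu q with hu
  have hu1 : 1 ≤ u := uu_pos q
  have hL1 : 1 ≤ L := Nat.log_pos one_lt_two hq
  set P : ℝ := C1 * (L : ℝ) ^ C1 with hP
  have hP0 : 0 ≤ P := by positivity
  have hPT : P ≤ 2 ^ ((C1 + C1) * u) := absorb C1 C1 q
  have hρ := ρ_pos
  have h1 : ∀ b ∈ (Bx ι L).filter (fun b => E < ∑ i, b i + K0), W b ≤
      (C1 * (L : ℝ) ^ (pk κ + κ)) * (1/2) ^ K0 +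
        ∑ a, min (2 ^ κ) (P * (ρ ^ (∑ i, b i + K0 - E) * ρ ^ (L - b a))) := by
    intro b hb
    rw [mem_filter] at hb
    obtain ⟨w1, w2⟩ := hW b hb.1 hb.2
    rw [mul_sum] at w2
    exact (le_min w1 w2).trans (min_sum_le univ _ _ _ (by positivity) (by positivity)
      (fun i _ => by positivity))
  refine (sum_le_sum h1).trans ?_
  rw [sum_add_distrib, sum_comm]
  have hLu2 : (L:ℝ) ^ (pk κ + κ + 2) * (1/2) ^ K0 ≤ 1 := by
    have h3 : L ^ (pk κ + κ + 2) ≤ 2 ^ K0 := by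
      calc L ^ (pk κ + κ + 2) ≤ (2 ^ u) ^ (pk κ + κ + 2) := Nat.pow_le_pow_left (La_lt_uu q).le _
        _ = 2 ^ (u * (pk κ + κ + 2)) := by rw [← pow_mul]
        _ ≤ 2 ^ K0 := by
            refine Nat.pow_le_pow_right (by norm_num) (le_trans ?_ hK0)
            rw [mul_comm]
            refine Nat.mul_le_mul_right _ ?_
            unfold pk
            rw [if_neg (by omega), zero_add]
    have h4 : (L:ℝ) ^ (pk κ + κ + 2) ≤ 2 ^ K0 := by exact_mod_cast h3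
    calc (L:ℝ) ^ (pk κ + κ + 2) * (1/2) ^ K0 ≤ 2 ^ K0 * (1/2) ^ K0 :=
          mul_le_mul_of_nonneg_right h4 (by positivity)
      _ = 1 := by rw [← mul_pow]; norm_num
  have h2 : ∑ b ∈ (Bx ι L).filter (fun b => E < ∑ i, b i + K0),
      (C1 * (L : ℝ) ^ (pk κ + κ)) * (1/2) ^ K0 ≤ C1 * (L:ℝ) ^ (κ - 2) := by
    rw [sum_const, nsmul_eq_mul]
    have h3 : ((((Bx ι L).filter (fun b => E < ∑ i, b i + K0)).card : ℕ) : ℝ) ≤ (L:ℝ) ^ κ := by
      have h4 := card_filter_le (Bx ι L) (fun b => E < ∑ i, b i + K0)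
      rw [card_Bx, hι] at h4
      exact_mod_cast h4
    calc ((((Bx ι L).filter (fun b => E < ∑ i, b i + K0)).card : ℕ) : ℝ) *
          ((C1 * (L : ℝ) ^ (pk κ + κ)) * (1/2) ^ K0)
        ≤ (L:ℝ) ^ κ * ((C1 * (L : ℝ) ^ (pk κ + κ)) * (1/2) ^ K0) :=
          mul_le_mul_of_nonneg_right h3 (by positivity)
      _ = (C1 * (L:ℝ) ^ (κ - 2)) * ((L:ℝ) ^ (pk κ + κ + 2) * (1/2) ^ K0) := by
          have h5 : (L:ℝ) ^ κ = (L:ℝ) ^ (κ - 2) * (L:ℝ) ^ 2 := by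
            rw [← pow_add]
            congr 1
            omega
          rw [h5, pow_add (L:ℝ) (pk κ + κ) 2]
          ring
      _ ≤ (C1 * (L:ℝ) ^ (κ - 2)) * 1 := mul_le_mul_of_nonneg_left hLu2 (by positivity)
      _ = _ := mul_one _
  have h3 : ∀ a : ι, ∑ b ∈ (Bx ι L).filter (fun b => E < ∑ i, b i + K0),
      min (2 ^ κ) (P * (ρ ^ (∑ i, b i + K0 - E) * ρ ^ (L - b a))) ≤
      (L:ℝ) ^ (κ - 2) * (2 ^ κ * (4 * ((C1 + C1) * u : ℕ)) ^ 2 + G4) := by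
    intro a
    obtain ⟨a', ha'⟩ : ∃ a' : ι, a' ≠ a :=
      Fintype.exists_ne_of_one_lt_card (by omega) a
    have := core1 (2 ^ κ) P ((C1 + C1) * u) L E K0 (by positivity) hP0 hPT a a' ha'
    rwa [hι] at this
  have h4 : ∑ a : ι, ∑ b ∈ (Bx ι L).filter (fun b => E < ∑ i, b i + K0),
      min (2 ^ κ) (P * (ρ ^ (∑ i, b i + K0 - E) * ρ ^ (L - b a))) ≤
      κ * ((L:ℝ) ^ (κ - 2) * (2 ^ κ * (4 * ((C1 + C1) * u : ℕ)) ^ 2 + G4)) := by
    refine (sum_le_sum fun a _ => h3 a).trans (le_of_eq ?_)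
    rw [sum_const, card_univ, hι, nsmul_eq_mul]
  have hLr : (1:ℝ) ≤ (L:ℝ) ^ (κ - 2) := one_le_pow₀ (by exact_mod_cast hL1)
  have hur : (1:ℝ) ≤ (u:ℝ) ^ 2 := one_le_pow₀ (by exact_mod_cast hu1)
  have hG := G4_nonneg
  have hLu : (0:ℝ) ≤ (L:ℝ) ^ (κ - 2) * (u:ℝ) ^ 2 := by positivity
  calc _ ≤ C1 * (L:ℝ) ^ (κ - 2) +
          κ * ((L:ℝ) ^ (κ - 2) * (2 ^ κ * (4 * ((C1 + C1) * u : ℕ)) ^ 2 + G4)) :=
        add_le_add h2 h4
    _ ≤ (κ:ℝ) * ((L:ℝ) ^ (κ - 2) * ((2 ^ κ * (4 * (C1 + C1 : ℕ)) ^ 2 + G4) * (u:ℝ) ^ 2)) +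
        C1 * ((L:ℝ) ^ (κ - 2) * (u:ℝ) ^ 2) := by
        have e1 : C1 * (L:ℝ) ^ (κ - 2) ≤ C1 * ((L:ℝ) ^ (κ - 2) * (u:ℝ) ^ 2) :=
          mul_le_mul_of_nonneg_left (le_mul_of_one_le_right (by positivity) hur) (by positivity)
        have e2 : (2:ℝ) ^ κ * (4 * ((C1 + C1) * u : ℕ)) ^ 2 + G4 ≤
            (2 ^ κ * (4 * (C1 + C1 : ℕ)) ^ 2 + G4) * (u:ℝ) ^ 2 := by
          push_cast
          nlinarith
        have e3 : (κ:ℝ) * ((L:ℝ) ^ (κ - 2) * (2 ^ κ * (4 * ((C1 + C1) * u : ℕ)) ^ 2 + G4)) ≤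
            (κ:ℝ) * ((L:ℝ) ^ (κ - 2) * ((2 ^ κ * (4 * (C1 + C1 : ℕ)) ^ 2 + G4) * (u:ℝ) ^ 2)) :=
          mul_le_mul_of_nonneg_left (mul_le_mul_of_nonneg_left e2 (by positivity)) (by positivity)
        linarith
    _ = ((κ:ℝ) * (2 ^ κ * (4 * (C1 + C1 : ℕ)) ^ 2 + G4) + C1) * ((L:ℝ) ^ (κ - 2) * (u:ℝ) ^ 2) := by
        ring
    _ ≤ (C2 : ℝ) * ((L:ℝ) ^ (κ - 2) * (u:ℝ) ^ 2) := by
        refine mul_le_mul_of_nonneg_right ?_ hLu
        exact hC2
    _ = _ := by ring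

open Classical in
/-- The neighbour sum over the multiples which are not parallel. -/
theorem nbrY3 (κ : ℕ) (hκ : 3 ≤ κ) : ∃ C : ℕ, ∀ (q : ℕ) [Fact q.Prime], Su q →
    C ≤ q → ∀ (ι : Type) [Fintype ι] [DecidableEq ι], Fintype.card ι = κ → ∀ D K0 : ℕ, D < κ →
    (κ + 2) * uu q ≤ K0 → ∀ τ : (ι → ℕ) → ℝ, (∀ b, 0 ≤ τ b) → (∀ b, τ b ≤ 1) →
    (∀ b, τ b * 2 ^ (K0 + ∑ a, b a) ≤ 2 ^ (D * La q)) →
    ∀ S : Finset (ι → ZMod q), (∀ h ∈ S, ∀ a, h a ≠ 0) → (∀ h ∈ S, ¬ Bd D K0 h) →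
    ∀ f : (ι → ZMod q) → ℝ, (∀ h ∈ S, 0 ≤ f h) → (∀ h ∈ S, f h ≤ 1) →
    (∀ h ∈ S, f h ≤ ∑ c ∈ (univ : Finset (ZMod q)).filter
      (fun c => c ≠ 0 ∧ ¬ Prl h (fun a => c * h a)), τ (fun a => dl (c * h a))) →
    ∑ h ∈ S, wt h * f h ≤ C * (La q : ℝ) ^ (κ - 2) * (uu q : ℝ) ^ 2 := by
  obtain ⟨C0, hC0⟩ := x1 κ (by omega)
  obtain ⟨C1, hC1⟩ := coreY κ (C0 + κ) hκ
  refine ⟨C0 + C1 + 2, ?_⟩
  intro q _ hSuit hq ι _ _ hι D K0 hD hK0 τ hτ0 hτ1 hτ S hS0 hSB f hf0 hf1 hf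
  set L := La q with hL
  have hq2 : 2 ≤ q := by omega
  have hL1 : 1 ≤ L := Nat.log_pos one_lt_two hq2
  have h2L : (2:ℝ) ^ L ≤ q := by exact_mod_cast La_le (q := q)
  set W : (ι → ℕ) → ℝ := fun b => ∑ h ∈ S.filter (fun h => (fun a => dl (h a)) = b), wt h * f h
    with hW
  have hmap : ∀ h ∈ S, (fun a => dl (h a)) ∈ (Bx ι L).filter (fun b => D * L < ∑ i, b i + K0) := by
    intro h hh
    rw [mem_filter, mem_Bx]
    refine ⟨fun a => dl_lt hq2 _ (hS0 h hh a), ?_⟩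
    have h1 := hSB h hh
    unfold Bd sz at h1
    exact not_le.mp h1
  rw [← Finset.sum_fiberwise_of_maps_to hmap]
  have hwt : ∀ b, ∀ h ∈ S.filter (fun h => (fun a => dl (h a)) = b), wt h ≤ 1 / 2 ^ (∑ a, b a) := by
    intro b h hh
    rw [mem_filter] at hh
    have := wt_le h (hS0 h hh.1)
    rwa [← hh.2]
  have hsub : ∀ b, S.filter (fun h => (fun a => dl (h a)) = b) ⊆
      (univ : Finset (ι → ZMod q)).filter (fun h => ∀ a, h a ≠ 0 ∧ dl (h a) = b a) := by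
    intro b h hh
    rw [mem_filter] at hh
    rw [mem_filter]
    exact ⟨mem_univ _, fun a => ⟨hS0 h hh.1 a, congrFun hh.2 a⟩⟩
  have hmain := hC1 q hq2 ι hι (D * L) K0 hK0 W ?_
  · refine hmain.trans ?_
    have : (C1:ℝ) ≤ ((C0 + C1 + 2 : ℕ) : ℝ) := by push_cast; linarith [(Nat.cast_nonneg C0 : (0:ℝ) ≤ C0)]
    gcongr
  intro b hb hE
  constructor
  · -- trivial bound
    calc W b ≤ ∑ h ∈ S.filter (fun h => (fun a => dl (h a)) = b), 1 / 2 ^ (∑ a, b a) := by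
          refine sum_le_sum fun h hh => ?_
          have hh' := (mem_filter.mp hh).1
          calc wt h * f h ≤ wt h * 1 := mul_le_mul_of_nonneg_left (hf1 h hh') (wt_nonneg h)
            _ ≤ _ := by rw [mul_one]; exact hwt b h hh
      _ = ((S.filter (fun h => (fun a => dl (h a)) = b)).card : ℝ) * (1 / 2 ^ (∑ a, b a)) := by
          rw [sum_const, nsmul_eq_mul]
      _ ≤ (2 ^ κ * 2 ^ (∑ a, b a)) * (1 / 2 ^ (∑ a, b a)) := by
          refine mul_le_mul_of_nonneg_right ?_ (by positivity)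
          have h1 := (card_le_card (hsub b)).trans (card_box (q := q) b)
          rw [hι] at h1
          exact_mod_cast h1
      _ = 2 ^ κ := by field_simp
  · -- the bound from the pair count
    have h1 : W b ≤ (1 / 2 ^ (∑ a, b a)) * ∑ b' ∈ Bx ι L, ((NP (q := q) b b').card : ℝ) * τ b' := by
      calc W b ≤ ∑ h ∈ S.filter (fun h => (fun a => dl (h a)) = b), (1 / 2 ^ (∑ a, b a)) *
            ∑ c ∈ (univ : Finset (ZMod q)).filter
              (fun c => c ≠ 0 ∧ ¬ Prl h (fun a => c * h a)), τ (fun a => dl (c * h a)) := by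
            refine sum_le_sum fun h hh => ?_
            have hh' := (mem_filter.mp hh).1
            exact mul_le_mul (hwt b h hh) (hf h hh') (hf0 h hh') (by positivity)
        _ = (1 / 2 ^ (∑ a, b a)) * ∑ h ∈ S.filter (fun h => (fun a => dl (h a)) = b),
            ∑ c ∈ (univ : Finset (ZMod q)).filter
              (fun c => c ≠ 0 ∧ ¬ Prl h (fun a => c * h a)), τ (fun a => dl (c * h a)) := by
            rw [mul_sum]
        _ ≤ _ := by
            refine mul_le_mul_of_nonneg_left ?_ (by positivity)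
            have h2 : ∑ h ∈ S.filter (fun h => (fun a => dl (h a)) = b),
                ∑ c ∈ (univ : Finset (ZMod q)).filter
                (fun c => c ≠ 0 ∧ ¬ Prl h (fun a => c * h a)), τ (fun a => dl (c * h a)) ≤
                ∑ h ∈ (univ : Finset (ι → ZMod q)).filter (fun h => ∀ a, h a ≠ 0 ∧ dl (h a) = b a),
                ∑ c ∈ (univ : Finset (ZMod q)).filter
                (fun c => c ≠ 0 ∧ ¬ Prl h (fun a => c * h a)), τ (fun a => dl (c * h a)) :=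
              sum_le_sum_of_subset_of_nonneg (hsub b)
                (fun h _ _ => sum_nonneg fun c _ => hτ0 _)
            refine h2.trans (le_of_eq ?_)
            set Q : Finset ((ι → ZMod q) × ZMod q) := univ.filter (fun p =>
              (∀ a, p.1 a ≠ 0 ∧ dl (p.1 a) = b a) ∧ (p.2 ≠ 0 ∧ ¬ Prl p.1 (fun a => p.2 * p.1 a)))
              with hQ
            have h3 : ∑ h ∈ (univ : Finset (ι → ZMod q)).filter
                (fun h => ∀ a, h a ≠ 0 ∧ dl (h a) = b a),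
                ∑ c ∈ (univ : Finset (ZMod q)).filter
                (fun c => c ≠ 0 ∧ ¬ Prl h (fun a => c * h a)), τ (fun a => dl (c * h a)) =
                ∑ p ∈ Q, τ (fun a => dl (p.2 * p.1 a)) := by
              rw [hQ, sum_filter, sum_filter, Fintype.sum_prod_type]
              refine sum_congr rfl fun h _ => ?_
              rw [sum_filter]
              by_cases hc : ∀ a, h a ≠ 0 ∧ dl (h a) = b a
              · rw [if_pos hc]
                refine sum_congr rfl fun c _ => if_congr ?_ rfl rfl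
                exact ⟨fun h5 => ⟨hc, h5⟩, fun h5 => h5.2⟩
              · rw [if_neg hc]
                symm
                refine sum_eq_zero fun c _ => ?_
                rw [if_neg]
                intro hcc
                exact hc hcc.1
            rw [h3]
            have hmapQ : ∀ p ∈ Q, (fun a => dl (p.2 * p.1 a)) ∈ Bx ι L := by
              intro p hp
              rw [hQ, mem_filter] at hp
              rw [mem_Bx]
              intro a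
              exact dl_lt hq2 _ (mul_ne_zero hp.2.2.1 (hp.2.1 a).1)
            rw [← Finset.sum_fiberwise_of_maps_to hmapQ]
            refine sum_congr rfl fun b' _ => ?_
            have h4 : ∀ p ∈ Q.filter (fun p => (fun a => dl (p.2 * p.1 a)) = b'),
                τ (fun a => dl (p.2 * p.1 a)) = τ b' := by
              intro p hp
              rw [(mem_filter.mp hp).2]
            rw [sum_congr rfl h4, sum_const, nsmul_eq_mul]
            congr 2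
            rw [hQ, filter_filter]
            unfold NP
            refine congrArg Finset.card ?_
            ext p
            rw [mem_filter, mem_filter]
            constructor
            · rintro ⟨-, ⟨h5, h6, h7⟩, h8⟩
              exact ⟨mem_univ _, h6, fun a => ⟨(h5 a).1, (h5 a).2, congrFun h8 a⟩, h7⟩
            · rintro ⟨-, h6, h5, h7⟩
              exact ⟨mem_univ _, ⟨fun a => ⟨(h5 a).1, (h5 a).2.1⟩, h6, h7⟩,
                funext fun a => (h5 a).2.2⟩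
    refine h1.trans ?_
    rw [mul_sum]
    have h2 : ∀ b' ∈ Bx ι L, (1 / 2 ^ (∑ a, b a)) * (((NP (q := q) b b').card : ℝ) * τ b') ≤
        (C0 * (L:ℝ) ^ pk κ) * (1/2) ^ K0 +
          (C0 * (L:ℝ) ^ C0) * (∑ a, ρ ^ (∑ i, b i + K0 - D * L) * ρ ^ (L - b a)) := by
      intro b' hb'
      have hA := hC0 q hSuit.1 (by omega) ι hι b b'
      rw [sum_add_distrib] at hA
      have hCL : (0:ℝ) ≤ C0 * (L:ℝ) ^ C0 := by positivity
      have hCL' : (0:ℝ) ≤ C0 * (L:ℝ) ^ pk κ := by positivity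
      calc (1 / 2 ^ (∑ a, b a)) * (((NP (q := q) b b').card : ℝ) * τ b')
          ≤ (1 / 2 ^ (∑ a, b a)) * ((C0 * (L : ℝ) ^ pk κ *
            ((2:ℝ) ^ (∑ a, b a + ∑ a, b' a) / (q:ℝ) ^ (κ - 1)) +
              C0 * (L : ℝ) ^ C0 *
              (√((2:ℝ) ^ (∑ a, b a + ∑ a, b' a)) * ∑ a, √((2:ℝ) ^ (b a + b' a)) / q)) * τ b') := by
            have := hτ0 b'
            refine mul_le_mul_of_nonneg_left (mul_le_mul_of_nonneg_right ?_ this) (by positivity)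
            exact hA
        _ = (C0 * (L : ℝ) ^ pk κ) * ((1 / 2 ^ (∑ a, b a)) *
              ((2:ℝ) ^ (∑ a, b a + ∑ a, b' a) / (q:ℝ) ^ (κ - 1) * τ b')) +
              (C0 * (L : ℝ) ^ C0) * ∑ a, (1 / 2 ^ (∑ a, b a)) *
              (√((2:ℝ) ^ (∑ a, b a + ∑ a, b' a)) * (√((2:ℝ) ^ (b a + b' a)) / q) * τ b') := by
            rw [← mul_sum, ← sum_mul, ← mul_sum]
            ring
        _ ≤ (C0 * (L : ℝ) ^ pk κ) * (1/2) ^ K0 + (C0 * (L : ℝ) ^ C0) *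
            (∑ a, ρ ^ (∑ i, b i + K0 - D * L) * ρ ^ (L - b a)) := by
            refine add_le_add (mul_le_mul_of_nonneg_left ?_ hCL')
              (mul_le_mul_of_nonneg_left (sum_le_sum fun a _ => ?_) hCL)
            · exact first_term q L κ D K0 _ _ _ h2L hD (hτ b')
            · exact second_term q L D K0 _ _ _ _ _ (hτ0 b') (hτ1 b') h2L hE
                (mem_Bx.mp hb a).le (mem_Bx.mp hb' a).le (hτ b')
    refine (sum_le_sum h2).trans ?_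
    rw [sum_const, nsmul_eq_mul, card_Bx, hι]
    have hρ := ρ_pos
    set X : ℝ := ∑ a, ρ ^ (∑ i, b i + K0 - D * L) * ρ ^ (L - b a) with hX
    have hX0 : 0 ≤ X := by positivity
    calc ((L ^ κ : ℕ) : ℝ) * ((C0 * (L:ℝ) ^ pk κ) * (1/2) ^ K0 + (C0 * (L:ℝ) ^ C0) * X)
        = (C0 * (L:ℝ) ^ (pk κ + κ)) * (1/2) ^ K0 + (C0 : ℝ) * (L:ℝ) ^ (C0 + κ) * X := by
          push_cast
          rw [pow_add, pow_add]
          ring
      _ ≤ (((C0 + κ : ℕ) : ℝ) * (L:ℝ) ^ (pk κ + κ)) * (1/2) ^ K0 +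
          ((C0 + κ : ℕ) : ℝ) * (L:ℝ) ^ (C0 + κ) * X := by
          have : (C0:ℝ) ≤ ((C0 + κ : ℕ) : ℝ) := by exact_mod_cast Nat.le_add_right _ _
          gcongr



open Classical in
/-- The neighbour sum over the multiples which are not parallel, all numbers of coordinates. -/
theorem nbrY (κ : ℕ) (hκ : 2 ≤ κ) : ∃ C : ℕ, ∀ (q : ℕ) [Fact q.Prime], Su q →
    C ≤ q → ∀ (ι : Type) [Fintype ι] [DecidableEq ι], Fintype.card ι = κ → ∀ D K0 : ℕ, D < κ →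
    max 5 (κ + 2) * uu q ≤ K0 → ∀ τ : (ι → ℕ) → ℝ, (∀ b, 0 ≤ τ b) → (∀ b, τ b ≤ 1) →
    (∀ b, τ b * 2 ^ (K0 + ∑ a, b a) ≤ 2 ^ (D * La q)) →
    ∀ S : Finset (ι → ZMod q), (∀ h ∈ S, ∀ a, h a ≠ 0) → (∀ h ∈ S, ¬ Bd D K0 h) →
    ∀ f : (ι → ZMod q) → ℝ, (∀ h ∈ S, 0 ≤ f h) → (∀ h ∈ S, f h ≤ 1) →
    (∀ h ∈ S, f h ≤ ∑ c ∈ (univ : Finset (ZMod q)).filter
      (fun c => c ≠ 0 ∧ ¬ Prl h (fun a => c * h a)), τ (fun a => dl (c * h a))) →
    ∑ h ∈ S, wt h * f h ≤ C * (La q : ℝ) ^ (κ - 2) * (uu q : ℝ) ^ 2 := by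
  rcases Nat.lt_or_ge κ 3 with h3 | h3
  · obtain rfl : κ = 2 := by omega
    refine ⟨2 ^ 21, ?_⟩
    intro q _ hSu _ ι _ _ hι D K0 hD hK0 τ hτ0 _ hτ S hS0 _ f _ _ hf
    have h1 := nbr2 hSu hι D K0 hD (by simpa using hK0) τ hτ0 hτ S hS0 f hf
    refine h1.trans ?_
    have hu1 : (1:ℝ) ≤ uu q := by exact_mod_cast uu_pos q
    have hu2 : (1:ℝ) ≤ (uu q : ℝ) ^ 2 := one_le_pow₀ hu1
    have e : ((2 ^ 21 : ℕ) : ℝ) = 2 ^ 21 := by push_cast; ring
    rw [Nat.sub_self, pow_zero, mul_one, e]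
    exact le_mul_of_one_le_right (by positivity) hu2
  · obtain ⟨C, hC⟩ := nbrY3 κ h3
    refine ⟨C, ?_⟩
    intro q _ hSu hq ι _ _ hι D K0 hD hK0 τ hτ0 hτ1 hτ S hS0 hSB f hf0 hf1 hf
    exact hC q hSu hq ι hι D K0 hD (le_trans (Nat.mul_le_mul_right _ (le_max_right _ _)) hK0)
      τ hτ0 hτ1 hτ S hS0 hSB f hf0 hf1 hf

end Pool.Agent.R329.SX
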