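import Pool.Agent.H935R2.PS.D

set_option autoImplicit false

/-!
# Primes with few coincidences on the average over all boxes
-/

namespace Pool.Agent.R329.SX

open Finset
open Pool.Agent.H935R2.PS (La uu coinc Suit)
open Pool.Agent.H935R2.PS.D

/-- the boxes -/
def Ix (l : ℕ) : Finset (ℕ × ℕ × ℕ × ℕ) :=
  range (l + 1) ×ˢ range (l + 1) ×ˢ range (l + 1) ×ˢ range (l + 1)

/-- the normalised number of coincidences in a box -/
noncomputable def nco (q : ℕ) (b : ℕ × ℕ × ℕ × ℕ) : ℝ :=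
  ((coinc q b.1 b.2.1 b.2.2.1 b.2.2.2).card : ℝ) * q / 2 ^ (b.1 + b.2.1 + b.2.2.1 + b.2.2.2)

/-- `q` is suitable in every box and on the average -/
def Su (q : ℕ) : Prop := Suit q ∧ ∑ b ∈ Ix (La q), nco q b ≤ 2 ^ 21 * (La q : ℝ) ^ 5

lemma nco_nonneg (q : ℕ) (b : ℕ × ℕ × ℕ × ℕ) : 0 ≤ nco q b := by
  unfold nco; positivity

open Classical in
/-- the primes for which the average is large -/
noncomputable def badS (a l : ℕ) : Finset ℕ := (PR a l).filter (fun q =>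
  (2 : ℝ) ^ 16 * (l : ℝ) ^ 5 < ∑ b ∈ Ix l, nco q b)

lemma sum_nco_le (a l : ℕ) (hal : 2 * l + 3 ≤ 3 * a) :
    ∑ q ∈ PR a l, ∑ b ∈ Ix l, nco q b ≤ (l + 1 : ℝ) ^ 4 * 2 ^ (l + 9) := by
  rw [sum_comm]
  have h : ∀ b ∈ Ix l, ∑ q ∈ PR a l, nco q b ≤ 2 ^ (l + 9) := by
    intro b hb
    simp only [Ix, mem_product, mem_range] at hb
    have h1 := sum_coinc a l hal b.1 b.2.1 b.2.2.1 b.2.2.2 (by omega) (by omega) (by omega)
      (by omega)
    have h2 : ((∑ q ∈ PR a l, (coinc q b.1 b.2.1 b.2.2.1 b.2.2.2).card : ℕ) : ℝ) ≤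
        2 ^ (b.1 + b.2.1 + b.2.2.1 + b.2.2.2 + 9) := by exact_mod_cast h1
    calc ∑ q ∈ PR a l, nco q b ≤ ∑ q ∈ PR a l,
          ((coinc q b.1 b.2.1 b.2.2.1 b.2.2.2).card : ℝ) * (2 ^ l /
            2 ^ (b.1 + b.2.1 + b.2.2.1 + b.2.2.2)) := by
          refine sum_le_sum fun q hq => ?_
          unfold nco
          rw [mul_div_assoc]
          refine mul_le_mul_of_nonneg_left ?_ (Nat.cast_nonneg _)
          refine div_le_div_of_nonneg_right ?_ (by positivity)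
          rw [PR, mem_filter, mem_Ioc] at hq
          exact_mod_cast hq.1.2
      _ = ((∑ q ∈ PR a l, (coinc q b.1 b.2.1 b.2.2.1 b.2.2.2).card : ℕ) : ℝ) * (2 ^ l /
            2 ^ (b.1 + b.2.1 + b.2.2.1 + b.2.2.2)) := by
          push_cast
          rw [sum_mul]
      _ ≤ 2 ^ (b.1 + b.2.1 + b.2.2.1 + b.2.2.2 + 9) * (2 ^ l /
            2 ^ (b.1 + b.2.1 + b.2.2.1 + b.2.2.2)) :=
          mul_le_mul_of_nonneg_right h2 (by positivity)
      _ = _ := by
          rw [pow_add (2:ℝ) (b.1 + b.2.1 + b.2.2.1 + b.2.2.2) 9, pow_add (2:ℝ) l 9]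
          field_simp
  refine (sum_le_sum h).trans (le_of_eq ?_)
  rw [sum_const, nsmul_eq_mul]
  congr 1
  unfold Ix
  simp only [card_product, card_range]
  push_cast
  ring

lemma card_badS (a l : ℕ) (hal : 2 * l + 3 ≤ 3 * a) (hl : 4 ≤ l) :
    ((badS a l).card : ℝ) * l ≤ 2 ^ (l - 3) := by
  classical
  have h1 : ((badS a l).card : ℝ) * ((2 : ℝ) ^ 16 * (l : ℝ) ^ 5) ≤
      (l + 1 : ℝ) ^ 4 * 2 ^ (l + 9) := by
    calc ((badS a l).card : ℝ) * ((2 : ℝ) ^ 16 * (l : ℝ) ^ 5)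
        = ∑ _q ∈ badS a l, (2 : ℝ) ^ 16 * (l : ℝ) ^ 5 := by rw [sum_const, nsmul_eq_mul]
      _ ≤ ∑ q ∈ badS a l, ∑ b ∈ Ix l, nco q b := by
          refine sum_le_sum fun q hq => ?_
          unfold badS at hq
          exact (mem_filter.1 hq).2.le
      _ ≤ ∑ q ∈ PR a l, ∑ b ∈ Ix l, nco q b :=
          sum_le_sum_of_subset_of_nonneg (filter_subset _ _)
            (fun q _ _ => sum_nonneg fun b _ => nco_nonneg q b)
      _ ≤ _ := sum_nco_le a l hal
  have hlr : (1:ℝ) ≤ l := by exact_mod_cast (by omega : 1 ≤ l)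
  have h2 : (l + 1 : ℝ) ^ 4 ≤ 16 * (l:ℝ) ^ 4 := by
    calc (l + 1 : ℝ) ^ 4 ≤ (2 * l) ^ 4 := by gcongr; linarith
      _ = _ := by ring
  have h3 : (2:ℝ) ^ (l + 9) = 2 ^ 12 * 2 ^ (l - 3) := by
    rw [← pow_add]; congr 1; omega
  have hl4 : (0:ℝ) < (l:ℝ) ^ 4 := by positivity
  have h4 : (l:ℝ) ^ 4 * (2 ^ 16 * (((badS a l).card : ℝ) * l)) ≤
      (l:ℝ) ^ 4 * (2 ^ 16 * 2 ^ (l - 3)) := by
    calc (l:ℝ) ^ 4 * (2 ^ 16 * (((badS a l).card : ℝ) * l))
        = ((badS a l).card : ℝ) * ((2 : ℝ) ^ 16 * (l : ℝ) ^ 5) := by ring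
      _ ≤ (l + 1 : ℝ) ^ 4 * 2 ^ (l + 9) := h1
      _ ≤ (16 * (l:ℝ) ^ 4) * 2 ^ (l + 9) := mul_le_mul_of_nonneg_right h2 (by positivity)
      _ = (l:ℝ) ^ 4 * (2 ^ 16 * 2 ^ (l - 3)) := by rw [h3]; ring
  have h5 := le_of_mul_le_mul_left h4 hl4
  exact le_of_mul_le_mul_left h5 (by positivity)

/-- suitable primes exist on every scale -/
theorem suitable2 : ∃ l₀ : ℕ, ∀ l : ℕ, l₀ ≤ l →
    ∃ q : ℕ, q.Prime ∧ Su q ∧ l ≤ 2 * La q ∧ La q ≤ l := by
  classical
  refine ⟨2 ^ 12, fun l hl => ?_⟩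
  have hl' : 4096 ≤ l := by norm_num at hl; exact hl
  set a := l - l / 4 with ha
  have hal : 2 * l + 3 ≤ 3 * a := by omega
  set I := range (l + 1) ×ˢ range (l + 1) ×ˢ range (l + 1) ×ˢ range (l + 1) with hI
  set BB := I.biUnion (fun b => bad a l b.1 b.2.1 b.2.2.1 b.2.2.2) with hBB
  have hcard : BB.card * l ^ 7 ≤ (l + 1) ^ 4 * 2 ^ (l + 16) := by
    calc BB.card * l ^ 7 ≤ (∑ b ∈ I, (bad a l b.1 b.2.1 b.2.2.1 b.2.2.2).card) * l ^ 7 :=
          Nat.mul_le_mul_right _ card_biUnion_le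
      _ = ∑ b ∈ I, (bad a l b.1 b.2.1 b.2.2.1 b.2.2.2).card * l ^ 7 := by rw [sum_mul]
      _ ≤ ∑ _b ∈ I, 2 ^ (l + 16) := by
          refine sum_le_sum (fun b hb => ?_)
          simp only [hI, mem_product, mem_range] at hb
          exact card_bad a l hal _ _ _ _ (by omega) (by omega) (by omega) (by omega)
      _ = (l + 1) ^ 4 * 2 ^ (l + 16) := by
          rw [sum_const, smul_eq_mul, hI]
          simp only [card_product, card_range]
          ring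
  have hl1 : (l + 1) ^ 4 ≤ 16 * l ^ 4 := by
    calc (l + 1) ^ 4 ≤ (2 * l) ^ 4 := Nat.pow_le_pow_left (by omega) 4
      _ = _ := by ring
  have hcard2 : BB.card * l ^ 3 ≤ 2 ^ (l + 20) := by
    have hp : 0 < l ^ 4 := by positivity
    refine le_of_mul_le_mul_right (a := l ^ 4) ?_ hp
    calc BB.card * l ^ 3 * l ^ 4 = BB.card * l ^ 7 := by ring
      _ ≤ (l + 1) ^ 4 * 2 ^ (l + 16) := hcard
      _ ≤ 16 * l ^ 4 * 2 ^ (l + 16) := Nat.mul_le_mul_right _ hl1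
      _ = _ := by ring
  have hcard3 : BB.card * l ≤ 2 ^ (l - 4) := by
    have h1 : BB.card * l * 2 ^ 24 ≤ 2 ^ (l - 4) * 2 ^ 24 := by
      calc BB.card * l * 2 ^ 24 ≤ BB.card * l * l ^ 2 := by
            refine Nat.mul_le_mul_left _ ?_
            calc 2 ^ 24 = (2 ^ 12) ^ 2 := by norm_num
              _ ≤ l ^ 2 := Nat.pow_le_pow_left hl 2
        _ = BB.card * l ^ 3 := by ring
        _ ≤ 2 ^ (l + 20) := hcard2
        _ = _ := by rw [← pow_add]; congr 1; omega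
    exact Nat.le_of_mul_le_mul_right h1 (by positivity)
  have hS := card_badS a l hal (by omega)
  have hS' : (badS a l).card * l ≤ 2 ^ (l - 3) := by exact_mod_cast hS
  have hpi := pi_lower l (by omega)
  have hPR := card_PR a l
  -- the excluded primes are few
  have hsmall : l * 2 ^ a + l + 1 ≤ 2 ^ (l - 1) := by
    have h1 : l + 1 ≤ l * 2 ^ a := by
      have : 2 ≤ 2 ^ a := by
        calc 2 = 2 ^ 1 := rfl
          _ ≤ 2 ^ a := Nat.pow_le_pow_right (by norm_num) (by omega)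
      calc l + 1 ≤ l * 2 := by omega
        _ ≤ l * 2 ^ a := Nat.mul_le_mul_left _ this
    have h2 : 2 * l ≤ 2 ^ (l / 4 - 1) := by
      have key : ∀ k : ℕ, 1023 ≤ k → 2 * (4 * (k + 1) + 3) ≤ 2 ^ k := by
        intro k hk
        induction k, hk using Nat.le_induction with
        | base =>
          calc 2 * (4 * (1023 + 1) + 3) ≤ 2 ^ 14 := by norm_num
            _ ≤ 2 ^ 1023 := Nat.pow_le_pow_right (by norm_num) (by norm_num)
        | succ k hk ih => rw [pow_succ]; omega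
      have := key (l / 4 - 1) (by omega)
      omega
    calc l * 2 ^ a + l + 1 ≤ l * 2 ^ a + l * 2 ^ a := by omega
      _ = 2 * l * 2 ^ a := by ring
      _ ≤ 2 ^ (l / 4 - 1) * 2 ^ a := Nat.mul_le_mul_right _ h2
      _ = 2 ^ (l - 1) := by rw [← pow_add]; congr 1; omega
  have hPl : 2 ^ (l - 1) ≤ l * (PR a l).card := by
    have h1 : 2 ^ l = 2 ^ (l - 1) + 2 ^ (l - 1) := by
      have : l = (l - 1) + 1 := by omega
      rw [this, pow_succ]; simp; ring
    have h2 : l * (2 ^ l).primeCounting ≤ l * (PR a l).card + l * 2 ^ a := by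
      rw [← mul_add]; exact Nat.mul_le_mul_left _ hPR
    omega
  have hlt : (BB ∪ badS a l).card < (PR a l).card := by
    by_contra hcon
    push Not at hcon
    have h0 := card_union_le BB (badS a l)
    have h1 : 2 ^ (l - 1) ≤ 2 ^ (l - 4) + 2 ^ (l - 3) := by
      calc 2 ^ (l - 1) ≤ l * (PR a l).card := hPl
        _ ≤ l * (BB.card + (badS a l).card) := Nat.mul_le_mul_left _ (hcon.trans h0)
        _ = BB.card * l + (badS a l).card * l := by ring
        _ ≤ _ := Nat.add_le_add hcard3 hS'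
    have e1 : 2 ^ (l - 1) = 8 * 2 ^ (l - 4) := by
      rw [show (8:ℕ) = 2 ^ 3 by norm_num, ← pow_add]; congr 1; omega
    have e2 : 2 ^ (l - 3) = 2 * 2 ^ (l - 4) := by
      rw [← pow_succ']; congr 1; omega
    have e3 : 0 < 2 ^ (l - 4) := by positivity
    omega
  obtain ⟨q, hq1, hq2⟩ := exists_mem_notMem_of_card_lt_card hlt
  rw [mem_union, not_or] at hq2
  have hLa := La_bounds a l q hq1
  have hql : (q:ℝ) ≤ 2 ^ l := by
    rw [PR, mem_filter, mem_Ioc] at hq1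
    exact_mod_cast hq1.1.2
  refine ⟨q, (mem_filter.1 hq1).2, ⟨?_, ?_⟩, by omega, hLa.2⟩
  · intro b1 b2 b3 b4 h1 h2 h3 h4
    by_contra hcon
    push Not at hcon
    apply hq2.1
    rw [hBB, mem_biUnion]
    refine ⟨(b1, b2, b3, b4), ?_, ?_⟩
    · rw [hI]
      simp only [mem_product, mem_range]
      omega
    · rw [bad, mem_filter]
      exact ⟨hq1, hcon⟩
  · have h1 : ∑ b ∈ Ix l, nco q b ≤ (2 : ℝ) ^ 16 * (l : ℝ) ^ 5 := by
      by_contra hcon
      push Not at hcon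
      apply hq2.2
      unfold badS
      rw [mem_filter]
      exact ⟨hq1, hcon⟩
    have hsub : Ix (La q) ⊆ Ix l := by
      intro b hb
      simp only [Ix, mem_product, mem_range] at hb ⊢
      omega
    have hl2 : (l:ℝ) ≤ 2 * La q := by exact_mod_cast (by omega : l ≤ 2 * La q)
    calc ∑ b ∈ Ix (La q), nco q b ≤ ∑ b ∈ Ix l, nco q b :=
          sum_le_sum_of_subset_of_nonneg hsub (fun b _ _ => nco_nonneg q b)
      _ ≤ (2 : ℝ) ^ 16 * (l : ℝ) ^ 5 := h1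
      _ ≤ (2 : ℝ) ^ 16 * (2 * La q : ℝ) ^ 5 := by gcongr
      _ = _ := by ring

end Pool.Agent.R329.SX
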