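import Pool.Agent.Y710.SX.X14b
import Pool.Agent.R329.SX.Stm

set_option autoImplicit false
set_option linter.unusedSectionVars false

/-!
# Uniform power saving 1/8: Y10, Y13, Y14
-/

namespace Pool.Agent.R329.SX

open Finset Pool.Agent.H470D4 Pool.Agent.Y258 Pool.Agent.Y290.SD
open Pool.Agent.H935R2.PS (La uu nn dl mx)
open Pool.Agent.Y833.SD (N1 N1_eq N1_le Wz rat rat_ne rat_none OO_eq)
open Pool.Agent.Y710.SX

/-- **X10** -/
theorem y10 (h6 : St_Y6) : St_Y10 := by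
  classical
  intro n
  obtain ⟨C, hC⟩ := h6 n
  refine ⟨2 * (n + 2) * C + C, ?_⟩
  intro q _ hS hCq M B c hc hM K0 K7 hK hK0 hK0' hbig j ω
  have hX := hC q hS (by omega)
  have hcardB : Fintype.card (Blk q B) = q ^ B := by
    rw [Fintype.card_fun, ZMod.card, Fintype.card_fin]
  by_cases hE : Exc c ω (j / M)
  swap
  · have h1 : AlX c K0 K7 j ω = univ := by
      unfold AlX
      rw [filter_true_of_mem]
      intro z _ h
      exact absurd h hE
    rw [h1, card_univ, hcardB]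
    omega
  set r := j / M with hr
  have hk : j % M < M := Nat.mod_lt _ hM
  set b : Fin M := ⟨M - 1 - j % M, by omega⟩ with hb
  have hbv : (b : ℕ) = M - 1 - j % M := rfl
  have hj : j = r * M + (M - 1 - (b:ℕ)) := by
    have h1 : M * (j / M) + j % M = j := Nat.div_add_mod j M
    rw [hbv, hr, mul_comm (j / M) M]
    omega
  -- the complement
  set S := (univ : Finset (Blk q B)).filter (fun z => z ∉ AlX c K0 K7 j ω) with hSd
  have hadd : (AlX c K0 K7 j ω).card + S.card = q ^ B := by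
    rw [← hcardB, ← card_univ, ← card_filter_add_card_filter_not (s := univ)
      (fun z => z ∈ AlX c K0 K7 j ω)]
    congr 2
    ext z
    simp
  suffices h : 2 * S.card ≤ q ^ B by omega
  have hsub : S ⊆ (IL M B n K7 r b).biUnion (fun l =>
      ((univ : Finset (Option (Fin (n+2)) → ZMod q)).filter (fun H => H none = 1 ∧
        BX (2 ^ (n + 6)) (dm M B l r) K0 H)).biUnion (fun H =>
        (univ : Finset (Blk q B)).filter (fun z =>
        Rel c (Function.update ω (r * M + (M - 1 - b)) z) l r H))) := by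
    intro z hz
    rw [hSd, mem_filter] at hz
    have h2 := hz.2
    unfold AlX at h2
    rw [mem_filter] at h2
    push Not at h2
    obtain ⟨_, l, hl, hG⟩ := h2 (mem_univ z)
    rw [← hr, ← hbv] at hl
    obtain ⟨H, hH0, hH1, hH2⟩ := not_Gx hG
    rw [mem_biUnion]
    refine ⟨l, hl, ?_⟩
    rw [mem_biUnion]
    refine ⟨H, mem_filter.2 ⟨mem_univ _, hH0, hH2⟩, mem_filter.2 ⟨mem_univ _, ?_⟩⟩
    rw [← hj]
    exact hH1
  have hreal : (S.card : ℝ) ≤ ∑ l ∈ IL M B n K7 r b, (q:ℝ) ^ B * (C * (La q : ℝ) ^ (n+2) / 2 ^ K0) := by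
    calc (S.card : ℝ) ≤ ((∑ l ∈ IL M B n K7 r b, ∑ H ∈
          ((univ : Finset (Option (Fin (n+2)) → ZMod q)).filter (fun H => H none = 1 ∧
          BX (2 ^ (n + 6)) (dm M B l r) K0 H)), ((univ : Finset (Blk q B)).filter (fun z =>
          Rel c (Function.update ω (r * M + (M - 1 - b)) z) l r H)).card : ℕ) : ℝ) := by
          refine Nat.cast_le.2 ?_
          refine (card_le_card hsub).trans (card_biUnion_le.trans ?_)
          exact sum_le_sum fun l _ => card_biUnion_le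
      _ = ∑ l ∈ IL M B n K7 r b, ∑ H ∈
          ((univ : Finset (Option (Fin (n+2)) → ZMod q)).filter (fun H => H none = 1 ∧
          BX (2 ^ (n + 6)) (dm M B l r) K0 H)), (((univ : Finset (Blk q B)).filter (fun z =>
          Rel c (Function.update ω (r * M + (M - 1 - b)) z) l r H)).card : ℝ) := by
          push_cast; rfl
      _ ≤ ∑ l ∈ IL M B n K7 r b, (q:ℝ) ^ B * (C * (La q : ℝ) ^ (n+2) / 2 ^ K0) := by
          refine sum_le_sum fun l hl => ?_
          have e1 : ∀ H ∈ ((univ : Finset (Option (Fin (n+2)) → ZMod q)).filter (fun H =>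
              H none = 1 ∧ BX (2 ^ (n + 6)) (dm M B l r) K0 H)),
              (((univ : Finset (Blk q B)).filter (fun z =>
              Rel c (Function.update ω (r * M + (M - 1 - b)) z) l r H)).card : ℝ) =
              (q:ℝ) ^ B / (q:ℝ) ^ dm M B l r := by
            intro H hH
            rw [mem_filter] at hH
            rw [card_eq_sum_ii]
            exact sum_ii_Rel hc hE hK hl H (by rw [hH.2.1]; exact one_ne_zero)
          rw [sum_congr rfl e1, sum_const, nsmul_eq_mul]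
          exact card_forb (hX (dm M B l r) K0 (IL_dm1 hl) (IL_dm hl) hK0 hK0')
  rw [sum_const, nsmul_eq_mul] at hreal
  have hIL : (((IL M B n K7 r b).card : ℕ) : ℝ) ≤ (n + 2) * (B * ((M * B + 1 : ℕ):ℝ) ^ n) := by
    have h1 := card_IL (M := M) (B := B) (n := n) K7 r b hK
    have h2 : (n + 2) * (B * (M * B) ^ n) ≤ (n + 2) * (B * (M * B + 1) ^ n) := by gcongr; omega
    exact_mod_cast h1.trans h2
  have hbig' : 2 * (n + 2) * C * (B * (M * B + 1) ^ n * La q ^ (n + 2)) ≤ 2 ^ K0 := by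
    refine le_trans ?_ hbig
    exact Nat.mul_le_mul_right _ (by omega)
  have hbigR : (2 * (n + 2) * C : ℝ) * (B * ((M * B + 1 : ℕ):ℝ) ^ n * (La q:ℝ) ^ (n + 2)) ≤
      2 ^ K0 := by exact_mod_cast hbig'
  have h2K : (0:ℝ) < 2 ^ K0 := by positivity
  have hfin : (2 * S.card : ℝ) ≤ (q:ℝ) ^ B := by
    calc (2 * S.card : ℝ) ≤ 2 * (((n + 2) * (B * ((M * B + 1 : ℕ):ℝ) ^ n)) *
          ((q:ℝ) ^ B * (C * (La q : ℝ) ^ (n+2) / 2 ^ K0))) := by
          refine mul_le_mul_of_nonneg_left (hreal.trans ?_) (by norm_num)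
          gcongr
      _ = (q:ℝ) ^ B * (((2 * (n + 2) * C : ℝ) *
          (B * ((M * B + 1 : ℕ):ℝ) ^ n * (La q:ℝ) ^ (n + 2))) / 2 ^ K0) := by ring
      _ ≤ (q:ℝ) ^ B * 1 := by
          refine mul_le_mul_of_nonneg_left ?_ (by positivity)
          rw [div_le_one h2K]
          exact hbigR
      _ = (q:ℝ) ^ B := mul_one _
  exact_mod_cast hfin

/-- **X13** -/
theorem y13 (hA : St_A6a) (h6 : St_Y6) : St_Y13 := by
  classical
  intro n
  obtain ⟨C1, hC1, hA'⟩ := hA (n + 3)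
  obtain ⟨C2, hC2⟩ := h6 n
  refine ⟨⌈C1 * C2⌉₊ + C2 + 3, ?_⟩
  intro q _ hS hCq M B c hc K0 K7 hK hK0 hK0' ω r b l l' hl hl' h0 hE hP
  have hw := hA' q (by omega) (Option (Fin (n+2))) (card_opt n)
  set D := dm M B l r with hD
  set D' := dm M B l' r with hD'
  have hu : (n + 5) * uu q ≤ K0 := by
    have : (n + 5) * uu q ≤ (n + 6) * uu q := Nat.mul_le_mul_right _ (by omega)
    omega
  have hb := hC2 q hS (by omega) D' K0 (IL_dm1 hl') (IL_dm hl') hu hK0'
  have hqD : (0:ℝ) < (q:ℝ) ^ D := pow_pos qpos _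
  have hqD' : (0:ℝ) < (q:ℝ) ^ D' := pow_pos qpos _
  set U : Blk q B → Pth q B := fun z => Function.update ω (r * M + (M - 1 - b)) z with hU
  -- the failure of `Gx`
  have hfail : ∀ z, ii (¬ Gx c K0 (U z) l' r) ≤ ∑ H' : Option (Fin (n+2)) → ZMod q,
      ii (H' none = 1 ∧ BX (2 ^ (n + 6)) D' K0 H') * ii (Rel c (U z) l' r H') := by
    intro z
    by_cases hG : Gx c K0 (U z) l' r
    · rw [ii_false (not_not_intro hG)]
      exact sum_nonneg fun H' _ => mul_nonneg (ii_nonneg _) (ii_nonneg _)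
    · rw [ii_true hG]
      obtain ⟨H', h1, h2, h3⟩ := not_Gx hG
      have h4 := single_le_sum (f := fun H' : Option (Fin (n+2)) → ZMod q =>
        ii (H' none = 1 ∧ BX (2 ^ (n + 6)) D' K0 H') * ii (Rel c (U z) l' r H'))
        (fun H' _ => mul_nonneg (ii_nonneg _) (ii_nonneg _)) (mem_univ H')
      refine le_trans ?_ h4
      rw [ii_true ⟨h1, h3⟩, ii_true h2, one_mul]
  calc ∑ z : Blk q B, RR c (U z) l r * ii (¬ Gx c K0 (U z) l' r)
      ≤ ∑ z : Blk q B, (∑ H : Option (Fin (n+2)) → ZMod q,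
          ii (H none ≠ 0 ∧ Rel c (U z) l r H) * ((q:ℝ) ^ D * wm H)) *
          ∑ H' : Option (Fin (n+2)) → ZMod q,
            ii (H' none = 1 ∧ BX (2 ^ (n + 6)) D' K0 H') * ii (Rel c (U z) l' r H') := by
        refine sum_le_sum fun z _ => ?_
        rw [← RR_eq]
        exact mul_le_mul_of_nonneg_left (hfail z) (RR_nonneg _ _ _ _)
    _ = ∑ H : Option (Fin (n+2)) → ZMod q, ∑ H' : Option (Fin (n+2)) → ZMod q,
          ((q:ℝ) ^ D * wm H) * ii (H' none = 1 ∧ BX (2 ^ (n + 6)) D' K0 H') *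
          ∑ z : Blk q B, ii (H none ≠ 0 ∧ Rel c (U z) l r H) * ii (Rel c (U z) l' r H') := by
        simp only [sum_mul_sum]
        simp only [mul_sum]
        rw [sum_comm]
        refine sum_congr rfl fun H _ => ?_
        rw [sum_comm]
        refine sum_congr rfl fun H' _ => sum_congr rfl fun z _ => ?_
        ring
    _ ≤ ∑ H : Option (Fin (n+2)) → ZMod q, ∑ H' : Option (Fin (n+2)) → ZMod q,
          ((q:ℝ) ^ D * wm H) * ii (H' none = 1 ∧ BX (2 ^ (n + 6)) D' K0 H') *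
          ((q:ℝ) ^ B / ((q:ℝ) ^ D * (q:ℝ) ^ D')) := by
        refine sum_le_sum fun H _ => sum_le_sum fun H' _ => ?_
        have hw0 := wm_nonneg H
        by_cases hH' : H' none = 1 ∧ BX (2 ^ (n + 6)) D' K0 H'
        · by_cases hH : H none ≠ 0
          · refine mul_le_mul_of_nonneg_left ?_ (mul_nonneg (by positivity) (ii_nonneg _))
            have e : ∀ z : Blk q B, ii (H none ≠ 0 ∧ Rel c (U z) l r H) =
                ii (Rel c (U z) l r H) := fun z =>
              ii_congr ⟨fun h => h.2, fun h => ⟨hH, h⟩⟩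
            simp only [e]
            exact sum_RR_pair_aux hc hl hl' hE h0 hP H H' hH (by rw [hH'.1]; exact one_ne_zero)
          · have e : ∀ z : Blk q B, ii (H none ≠ 0 ∧ Rel c (U z) l r H) = 0 := fun z =>
              ii_false fun h => hH h.1
            simp only [e, zero_mul, sum_const_zero, mul_zero]
            exact mul_nonneg (mul_nonneg (by positivity) (ii_nonneg _)) (by positivity)
        · rw [ii_false hH']
          simp
    _ = (q:ℝ) ^ B * ((∑ H : Option (Fin (n+2)) → ZMod q, wm H) *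
          ((∑ H' : Option (Fin (n+2)) → ZMod q, ii (H' none = 1 ∧ BX (2 ^ (n + 6)) D' K0 H')) /
            (q:ℝ) ^ D')) := by
        rw [sum_div, sum_mul_sum, mul_sum]
        refine sum_congr rfl fun H _ => ?_
        rw [mul_sum]
        refine sum_congr rfl fun H' _ => ?_
        field_simp
    _ ≤ (q:ℝ) ^ B * ((C1 * (La q : ℝ) ^ (n + 3)) *
          ((C2 * (La q : ℝ) ^ (n + 2) * 2 ^ (D' * La q) / 2 ^ K0) / (q:ℝ) ^ D')) := by
        have e1 : ∑ H' : Option (Fin (n+2)) → ZMod q, ii (H' none = 1 ∧ BX (2 ^ (n + 6)) D' K0 H') ≤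
            C2 * (La q : ℝ) ^ (n + 2) * 2 ^ (D' * La q) / 2 ^ K0 := by
          refine le_trans ?_ hb
          rw [card_eq_sum_ii]
        have e2 : (0:ℝ) ≤ ∑ H : Option (Fin (n+2)) → ZMod q, wm H :=
          sum_nonneg fun H _ => wm_nonneg H
        have e3 : (0:ℝ) ≤ ∑ H' : Option (Fin (n+2)) → ZMod q,
            ii (H' none = 1 ∧ BX (2 ^ (n + 6)) D' K0 H') :=
          sum_nonneg fun H _ => ii_nonneg _
        gcongr
    _ ≤ (q:ℝ) ^ B * ((C1 * (La q : ℝ) ^ (n + 3)) *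
          ((C2 * (La q : ℝ) ^ (n + 2) * (q:ℝ) ^ D' / 2 ^ K0) / (q:ℝ) ^ D')) := by
        have := two_pow_La (q := q) D'
        gcongr
    _ = (q:ℝ) ^ B * ((C1 * C2) * (La q : ℝ) ^ (2 * n + 5) / 2 ^ K0) := by
        rw [show 2 * n + 5 = (n + 3) + (n + 2) by ring, pow_add _ (n+3) (n+2)]
        field_simp
    _ ≤ (q:ℝ) ^ B * ((⌈C1 * C2⌉₊ + C2 + 3 : ℕ) * (La q : ℝ) ^ (2 * n + 5) / 2 ^ K0) := by
        have h1 := Nat.le_ceil (C1 * C2)
        have h2 : C1 * C2 ≤ ((⌈C1 * C2⌉₊ + C2 + 3 : ℕ) : ℝ) := by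
          push_cast
          have : (0:ℝ) ≤ C2 := Nat.cast_nonneg _
          linarith
        gcongr

/-- **X14** -/
theorem y14 (h9 : St_Y9) (h8 : St_C8) : St_Y14 := by
  classical
  intro n
  obtain ⟨C9, hC9⟩ := h9 n
  obtain ⟨C8, hC8⟩ := h8 n
  refine ⟨C8 ^ 2 + (2 * n + 3) ^ (n + 2) * (2 ^ (2 * n + 8) * C9 + 1) + C9 + 3, ?_⟩
  intro q _ hS hCq M B c hc K0 K7 hK hK0 hK0' ω r b hE hP
  set N := (2 * n + 3) ^ (n + 2) with hN
  have hq3 : 3 ≤ q := by omega
  have hu : (n + 5) * uu q ≤ K0 := by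
    have : (n + 5) * uu q ≤ (n + 6) * uu q := Nat.mul_le_mul_right _ (by omega)
    omega
  have hq0 : (0:ℝ) < q := qpos
  have hqB : (0:ℝ) < (q:ℝ) ^ B := pow_pos hq0 _
  set I := IL M B n K7 r b with hI
  set g : (Fin (n+2) → ℕ) → Blk q B → ℝ := fun l z =>
    RR c (Wz M ω r b z) l r * ii (Gx c K0 (Wz M ω r b z) l r) with hg
  have hg0 : ∀ l z, 0 ≤ g l z := fun l z => mul_nonneg (RR_nonneg _ _ _ _) (ii_nonneg _)
  set G : (Fin (n+2) → ℕ) → ℝ := fun l => ∑ z : Blk q B, g l z ^ 2 with hG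
  have hG0 : ∀ l, 0 ≤ G l := fun l => sum_nonneg fun z _ => sq_nonneg _
  set S := ∑ H : Option (Fin (n+2)) → ZMod q, ii (H none ≠ 0) * wm H with hSd
  have hS0 : 0 ≤ S := sum_nonneg fun H _ => mul_nonneg (ii_nonneg _) (wm_nonneg _)
  -- the sum over the pairs
  have hexp : ∑ z : Blk q B, (∑ l ∈ I, g l z) ^ 2 =
      ∑ l ∈ I, ∑ l' ∈ I, ∑ z : Blk q B, g l z * g l' z := by
    simp only [sq, sum_mul_sum]
    rw [sum_comm]
    refine sum_congr rfl fun l _ => ?_
    rw [sum_comm]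
  have hpair : ∀ l ∈ I, ∀ l' ∈ I, ∑ z : Blk q B, g l z * g l' z ≤
      (q:ℝ) ^ B * (C8 ^ 2 * (La q : ℝ) ^ (2 * n + 6)) +
        ii (1 ≤ dm M B (mxv l l') r) * ((G l + G l') / 2) := by
    intro l hl l' hl'
    by_cases hd : 1 ≤ dm M B (mxv l l') r
    · rw [ii_true hd, one_mul]
      have h1 : ∑ z : Blk q B, g l z * g l' z ≤ (G l + G l') / 2 := by
        simp only [hG]
        rw [← sum_add_distrib, sum_div]
        refine sum_le_sum fun z _ => ?_
        nlinarith [sq_nonneg (g l z - g l' z)]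
      have h2 : 0 ≤ (q:ℝ) ^ B * (C8 ^ 2 * (La q : ℝ) ^ (2 * n + 6)) := by positivity
      linarith
    · rw [ii_false hd, zero_mul, add_zero]
      have h1 : ∑ z : Blk q B, g l z * g l' z ≤ (q:ℝ) ^ B * (S * S) := by
        refine le_trans (sum_le_sum fun z _ => ?_) (far_le hc hE hP hl hl' (by omega))
        refine mul_le_mul ?_ ?_ (hg0 _ _) (RR_nonneg _ _ _ _)
        · exact mul_le_of_le_one_right (RR_nonneg _ _ _ _) (ii_le_one _)
        · exact mul_le_of_le_one_right (RR_nonneg _ _ _ _) (ii_le_one _)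
      have h2 : S ≤ C8 * (La q : ℝ) ^ (n + 3) := by
        have h3 := hC8 q hq3 M B c hc K7 (by omega) ω r b l hl hE
        rw [sum_RR_eq hc hE (by omega) hl] at h3
        exact le_of_mul_le_mul_left h3 hqB
      refine h1.trans (mul_le_mul_of_nonneg_left ?_ hqB.le)
      calc S * S ≤ (C8 * (La q : ℝ) ^ (n + 3)) * (C8 * (La q : ℝ) ^ (n + 3)) :=
            mul_le_mul h2 h2 hS0 (by positivity)
        _ = C8 ^ 2 * (La q : ℝ) ^ (2 * n + 6) := by
            rw [show 2 * n + 6 = (n + 3) + (n + 3) by ring, pow_add _ (n+3) (n+3)]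
            ring
  have hnear : ∀ l ∈ I, ∑ l' ∈ I, ii (1 ≤ dm M B (mxv l l') r) ≤ (N : ℝ) := by
    intro l hl
    have h1 := card_join K7 r b l hl
    rw [← hI] at h1
    have h2 : ∑ l' ∈ I, ii (1 ≤ dm M B (mxv l l') r) =
        (((I.filter (fun l' => 1 ≤ dm M B (mxv l l') r)).card : ℕ) : ℝ) := by
      rw [card_filter]
      push_cast
      refine sum_congr rfl fun l' _ => ?_
      by_cases h : 1 ≤ dm M B (mxv l l') r
      · rw [ii_true h, if_pos h]
      · rw [ii_false h, if_neg h]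
    rw [h2]
    exact_mod_cast h1
  have hsumG : ∑ l ∈ I, ∑ l' ∈ I, ii (1 ≤ dm M B (mxv l l') r) * ((G l + G l') / 2) ≤
      N * ∑ l ∈ I, G l := by
    have h1 : ∑ l ∈ I, ∑ l' ∈ I, ii (1 ≤ dm M B (mxv l l') r) * (G l' / 2) =
        ∑ l ∈ I, ∑ l' ∈ I, ii (1 ≤ dm M B (mxv l l') r) * (G l / 2) := by
      rw [sum_comm]
      refine sum_congr rfl fun l _ => sum_congr rfl fun l' _ => ?_
      rw [mxv_comm]
    have h2 : ∑ l ∈ I, ∑ l' ∈ I, ii (1 ≤ dm M B (mxv l l') r) * ((G l + G l') / 2) =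
        ∑ l ∈ I, ∑ l' ∈ I, ii (1 ≤ dm M B (mxv l l') r) * (G l / 2) +
        ∑ l ∈ I, ∑ l' ∈ I, ii (1 ≤ dm M B (mxv l l') r) * (G l' / 2) := by
      rw [← sum_add_distrib]
      refine sum_congr rfl fun l _ => ?_
      rw [← sum_add_distrib]
      refine sum_congr rfl fun l' _ => ?_
      ring
    rw [h2, h1, ← two_mul, mul_sum, mul_sum]
    refine sum_le_sum fun l hl => ?_
    rw [← sum_mul]
    have h3 := hnear l hl
    have h4 := hG0 l
    nlinarith
  have hdiag : ∀ l ∈ I, G l ≤ (q:ℝ) ^ B * (QQ c ω r l l +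
      2 ^ (2 * n + 8) * 2 ^ K0 * (C9 * (La q : ℝ) ^ (n + 2))) := by
    intro l hl
    refine (diag_le (K0 := K0) hc hE hK hl).trans ?_
    have h1 := hC9 q hS (by omega) (dm M B l r) K0 (IL_dm1 hl) (IL_dm hl) hu hK0'
    gcongr
  show ∑ z : Blk q B, (∑ l ∈ I, g l z) ^ 2 ≤ _
  rw [hexp]
  have hQ0 : 0 ≤ ∑ l ∈ I, QQ c ω r l l := sum_nonneg fun l _ => QQ_nonneg _ _ _ _ _
  calc ∑ l ∈ I, ∑ l' ∈ I, ∑ z : Blk q B, g l z * g l' z
      ≤ ∑ l ∈ I, ∑ l' ∈ I, ((q:ℝ) ^ B * (C8 ^ 2 * (La q : ℝ) ^ (2 * n + 6)) +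
        ii (1 ≤ dm M B (mxv l l') r) * ((G l + G l') / 2)) :=
        sum_le_sum fun l hl => sum_le_sum fun l' hl' => hpair l hl l' hl'
    _ = (I.card : ℝ) * ((I.card : ℝ) * ((q:ℝ) ^ B * (C8 ^ 2 * (La q : ℝ) ^ (2 * n + 6)))) +
        ∑ l ∈ I, ∑ l' ∈ I, ii (1 ≤ dm M B (mxv l l') r) * ((G l + G l') / 2) := by
        simp only [sum_add_distrib, sum_const, nsmul_eq_mul]
    _ ≤ (I.card : ℝ) * ((I.card : ℝ) * ((q:ℝ) ^ B * (C8 ^ 2 * (La q : ℝ) ^ (2 * n + 6)))) +
        N * ∑ l ∈ I, (q:ℝ) ^ B * (QQ c ω r l l +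
          2 ^ (2 * n + 8) * 2 ^ K0 * (C9 * (La q : ℝ) ^ (n + 2))) := by
        refine add_le_add le_rfl (hsumG.trans ?_)
        exact mul_le_mul_of_nonneg_left (sum_le_sum hdiag) (Nat.cast_nonneg _)
    _ = (q:ℝ) ^ B * (C8 ^ 2 * ((La q : ℝ) ^ (2 * n + 6) * (I.card : ℝ) ^ 2) +
        N * (2 ^ (2 * n + 8) * C9) * ((La q : ℝ) ^ (n + 2) * 2 ^ K0 * I.card) +
        N * ∑ l ∈ I, QQ c ω r l l) := by
        rw [← mul_sum, sum_add_distrib, sum_const, nsmul_eq_mul]
        ring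
    _ ≤ _ := by
        refine mul_le_mul_of_nonneg_left ?_ hqB.le
        have a1 : (0:ℝ) ≤ (La q : ℝ) ^ (2 * n + 6) * (I.card : ℝ) ^ 2 := by positivity
        have a2 : (0:ℝ) ≤ (La q : ℝ) ^ (n + 2) * 2 ^ K0 * I.card := by positivity
        have c1 : (0:ℝ) ≤ (C8:ℝ) ^ 2 := by positivity
        have c2 : (0:ℝ) ≤ (N:ℝ) * (2 ^ (2 * n + 8) * C9) := by positivity
        have c3 : (0:ℝ) ≤ (N:ℝ) := Nat.cast_nonneg _
        have c4 : (0:ℝ) ≤ (C9:ℝ) := Nat.cast_nonneg _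
        have e : (((C8 ^ 2 + N * (2 ^ (2 * n + 8) * C9 + 1) + C9 + 3 : ℕ)) : ℝ) =
            (C8:ℝ) ^ 2 + (N:ℝ) * (2 ^ (2 * n + 8) * C9) + N + C9 + 3 := by
          push_cast
          ring
        rw [e, mul_add, mul_add]
        refine add_le_add (add_le_add ?_ ?_) ?_
        · exact mul_le_mul_of_nonneg_right (by linarith) a1
        · exact mul_le_mul_of_nonneg_right (by linarith) a2
        · exact mul_le_mul_of_nonneg_right (by linarith) hQ0


end Pool.Agent.R329.SX
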