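import Pool.Agent.Y807.SX.X12
import Pool.Agent.R329.SX.Stm

set_option autoImplicit false
set_option linter.unusedSectionVars false

/-!
# Uniform power saving 1/8: Y12
-/

namespace Pool.Agent.R329.SX

open Finset Pool.Agent.H470D4 Pool.Agent.Y258 Pool.Agent.Y833.SD
open Pool.Agent.H935R2.PS (La uu nn dl mx)
open Pool.Agent.Y807.SX

open Classical in
theorem y12 (hA6 : St_A6a) (hX8 : St_Y8) : St_Y12 := by
  intro n
  obtain ⟨C6, hC6, h6⟩ := hA6 (n+1)
  obtain ⟨C8, h8⟩ := hX8 n 5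
  refine ⟨max 3 (max C8 (max (2 ^ (n+3)) ⌈C6⌉₊)), ?_⟩
  intro q _ hS hCq M B c hc K0 K7 hK7 hK0 hK0' ω r b l l' hl hl' hne he hE
  set C := max 3 (max C8 (max (2 ^ (n+3)) ⌈C6⌉₊)) with hCdef
  have c1 : 3 ≤ C := le_max_left _ _
  have c2 : C8 ≤ C := (le_max_left _ _).trans (le_max_right _ _)
  have c4 : 2 ^ (n+3) ≤ C :=
    (le_max_left _ _).trans ((le_max_right _ _).trans (le_max_right _ _))
  have c3 : C6 ≤ (C:ℝ) := (Nat.le_ceil _).trans (by
    exact_mod_cast (le_max_right _ _).trans ((le_max_right _ _).trans (le_max_right _ _)))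
  have hl1 := mem_IL.1 hl
  have hl2 := mem_IL.1 hl'
  have hD1 : 1 ≤ dm M B l r := by unfold dm; omega
  have hD2 : dm M B l r ≤ n + 2 := by unfold dm; omega
  have hqB : (0:ℝ) ≤ (q:ℝ) ^ B := by positivity
  have huu : 1 ≤ uu q := by unfold Pool.Agent.H935R2.PS.uu; omega
  have hLa1 : 1 ≤ La q := by
    have : 1 * 1 ≤ (n + 6) * uu q := Nat.mul_le_mul (by omega) huu
    omega
  have hQ0 : 0 ≤ QQ c ω r l l' := by
    unfold QQ
    refine sum_nonneg fun H _ => sum_nonneg fun H' _ => mul_nonneg (ii_nonneg _)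
      (mul_nonneg (by positivity) (mul_nonneg (wm_nonneg _) (wm_nonneg _)))
  have hmain := sum_leX hc (K0 := K0) hE hK7 hl hl' he
  refine hmain.trans ?_
  rw [add_comm, mul_add]
  refine add_le_add ?_ ?_
  swap
  · refine mul_le_mul_of_nonneg_left ?_ hqB
    refine div_le_div_of_nonneg_right ?_ (by positivity)
    exact mul_le_mul_of_nonneg_right (by exact_mod_cast c4) hQ0
  set F0 := (univ : Finset (Option (Fin (n+2)) → ZMod q)).filter (fun H => H none ≠ 0) with hF0
  have hLa : (0:ℝ) ≤ (La q : ℝ) ^ (n+1) := by positivity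
  have huR : (1:ℝ) ≤ (uu q : ℝ) := by exact_mod_cast huu
  have hu2 : (uu q : ℝ) ≤ (uu q : ℝ) ^ 2 := by nlinarith
  have hu3 : (1:ℝ) ≤ (uu q : ℝ) ^ 2 := huR.trans hu2
  by_cases hA : ∀ a, l a ≤ l' a
  · have h1 : ∑ H ∈ F0, wm H * ((q:ℝ) ^ dm M B l r * NX c K0 ω r b l l' H) = 0 := by
      refine sum_eq_zero fun H hH => ?_
      rw [NX_none hl' hA H (mem_filter.1 hH).2, mul_zero, mul_zero]
    rw [h1]
    positivity
  · push Not at hA
    obtain ⟨a0, ha0⟩ := hA
    by_cases hA1 : ∀ a, a ≠ a0 → l a ≤ l' a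
    · -- one coordinate
      set F1 := (univ : Finset (Option (Fin (n + 2)) → ZMod q)).filter (fun H => H none ≠ 0 ∧
        H (some a0) = 0 ∧ ¬ BdL (dm M B l r) K0 H) with hF1
      have h1 : ∀ H ∈ F0, H ∉ F1 → wm H * ((q:ℝ) ^ dm M B l r * NX c K0 ω r b l l' H) = 0 := by
        intro H hH hH1
        rw [hF0, mem_filter] at hH
        rw [NX_zero_of, mul_zero, mul_zero]
        intro z hz
        apply hH1
        rw [hF1, mem_filter]
        refine ⟨mem_univ _, hH.2, EvX_zero hz ha0, fun hb => ?_⟩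
        exact EvX_bad hH.2 hz (Or.inl hb)
      have hsub : F1 ⊆ F0 := by
        intro H hH
        rw [hF1, mem_filter] at hH
        rw [hF0, mem_filter]
        exact ⟨mem_univ _, hH.2.1⟩
      rw [← sum_subset hsub h1]
      have h8' := h8 q hS (c2.trans hCq) (dm M B l r) K0 a0 hD1 hD2 (by omega) hK0'
      rw [← hF1] at h8'
      calc ∑ H ∈ F1, wm H * ((q:ℝ) ^ dm M B l r * NX c K0 ω r b l l' H)
          ≤ ∑ H ∈ F1, wm H * ((q:ℝ) ^ B *
            (min 1 (((5:ℕ):ℝ) * La q * XW (dm M B l r) K0 H))) := by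
            refine sum_le_sum fun H hH => ?_
            refine mul_le_mul_of_nonneg_left ?_ (wm_nonneg H)
            exact NX_one hc hLa1 hE hK7 hl hl' he ha0 hA1 H (mem_filter.1 (hsub hH)).2
        _ = (q:ℝ) ^ B * (∑ H ∈ F1, wm H *
            min 1 (((5:ℕ):ℝ) * La q * XW (dm M B l r) K0 H)) := by
            rw [mul_sum]
            exact sum_congr rfl fun H _ => by ring
        _ ≤ (q:ℝ) ^ B * (C8 * (La q : ℝ) ^ (n+1) * uu q) :=
            mul_le_mul_of_nonneg_left h8' hqB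
        _ ≤ (q:ℝ) ^ B * (C * (La q : ℝ) ^ (n+1) * (uu q : ℝ) ^ 2) := by
            refine mul_le_mul_of_nonneg_left ?_ hqB
            refine mul_le_mul ?_ hu2 (by positivity) (by positivity)
            refine mul_le_mul_of_nonneg_right ?_ hLa
            exact_mod_cast c2
    · -- two coordinates
      push Not at hA1
      obtain ⟨a1, hne1, ha1⟩ := hA1
      set F2 := (univ : Finset (Option (Fin (n + 2)) → ZMod q)).filter (fun H =>
        H (some a0) = 0 ∧ H (some a1) = 0) with hF2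
      have h1 : ∀ H ∈ F0, wm H * ((q:ℝ) ^ dm M B l r * NX c K0 ω r b l l' H) ≤
          (q:ℝ) ^ B * (if H ∈ F2 then wm H else 0) := by
        intro H hH
        rw [hF0, mem_filter] at hH
        split_ifs with hm
        · rw [mul_comm ((q:ℝ) ^ B)]
          exact mul_le_mul_of_nonneg_left (NX_le hc hE hK7 hl H hH.2) (wm_nonneg H)
        · rw [NX_zero_of, mul_zero, mul_zero, mul_zero]
          intro z hz
          apply hm
          rw [hF2, mem_filter]
          exact ⟨mem_univ _, EvX_zero hz ha0, EvX_zero hz ha1⟩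
      calc ∑ H ∈ F0, wm H * ((q:ℝ) ^ dm M B l r * NX c K0 ω r b l l' H)
          ≤ ∑ H ∈ F0, (q:ℝ) ^ B * (if H ∈ F2 then wm H else 0) := sum_le_sum h1
        _ = (q:ℝ) ^ B * ∑ H ∈ F0, (if H ∈ F2 then wm H else 0) := by rw [mul_sum]
        _ ≤ (q:ℝ) ^ B * ∑ H : Option (Fin (n + 2)) → ZMod q, (if H ∈ F2 then wm H else 0) := by
            refine mul_le_mul_of_nonneg_left ?_ hqB
            refine sum_le_univ_sum_of_nonneg fun H => ?_
            split_ifs
            · exact wm_nonneg H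
            · exact le_rfl
        _ = (q:ℝ) ^ B * ∑ H ∈ F2, wm H := by
            rw [sum_ite_mem, univ_inter]
        _ ≤ (q:ℝ) ^ B * (C6 * (La q : ℝ) ^ (n+1)) := by
            refine mul_le_mul_of_nonneg_left ?_ hqB
            exact sum_wm_two a0 a1 hne1.symm (fun ι _ _ hι => h6 q (c1.trans hCq) ι hι)
        _ ≤ (q:ℝ) ^ B * (C * (La q : ℝ) ^ (n+1) * (uu q : ℝ) ^ 2) := by
            refine mul_le_mul_of_nonneg_left ?_ hqB
            calc C6 * (La q : ℝ) ^ (n+1) ≤ C * (La q : ℝ) ^ (n+1) :=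
                  mul_le_mul_of_nonneg_right c3 hLa
              _ = C * (La q : ℝ) ^ (n+1) * 1 := by ring
              _ ≤ _ := mul_le_mul_of_nonneg_left hu3 (by positivity)


end Pool.Agent.R329.SX
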