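import Pool.Agent.Y274.SX.X11
import Pool.Agent.R329.SX.Stm

set_option autoImplicit false
set_option linter.unusedSectionVars false

/-!
# Uniform power saving 1/8: Y11
-/

namespace Pool.Agent.R329.SX

open Finset Pool.Agent.H470D4 Pool.Agent.Y258
open Pool.Agent.Y419.SD hiding nonaligned nondirect
open Pool.Agent.H935R2.PS (La uu nn dl mx)
open Pool.Agent.Y274.SX

section main
variable {q M B n : ℕ} [Fact q.Prime]

theorem y11 (h7 : St_Y7) (h8 : St_C8) (h10 : St_C10) : St_Y11 := by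
  classical
  intro n
  obtain ⟨C7, h7⟩ := h7 n
  obtain ⟨C8, h8⟩ := h8 n
  obtain ⟨P, hP⟩ : ∃ P : ℕ, P = 2 ^ (n + 3) := ⟨_, rfl⟩
  refine ⟨C7 + C8 + 3 + P, ?_⟩
  intro q _ hS hq M B c hc K0 K7 hK7 hK0 hK0L ω r b l hl hE X Y t
  have h3q : 3 ≤ q := by omega
  set j := r * M + (M - 1 - (b:ℕ)) with hj
  have hjr : r * M ≤ j := by omega
  set D := dm M B l r with hD
  have hl' := mem_IL.1 hl
  have hD1 : 1 ≤ D := by rw [hD]; unfold dm; omega
  have hD2 : D ≤ n + 2 := by rw [hD]; unfold dm; omega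
  have hr : r < M * B := by omega
  have hqpos : (0:ℝ) < q := by exact_mod_cast (Fact.out : q.Prime).pos
  have hqB : (0:ℝ) < (q:ℝ) ^ B := by positivity
  have hEz : ∀ z, Exc c (Function.update ω j z) r := fun z => (Exc_update c ω hjr z).2 hE
  have hLnn : (0:ℝ) ≤ (La q : ℝ) ^ (n+1) * (uu q : ℝ) ^ 2 := by positivity
  have hLnn3 : (0:ℝ) ≤ (La q : ℝ) ^ (n+3) := by positivity
  have hQQ := QQ_nonneg c ω r l l
  have hCnn : (0:ℝ) ≤ ((C7 + C8 + 3 + P : ℕ) : ℝ) := Nat.cast_nonneg _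
  have hQ0 : 0 ≤ ((C7 + C8 + 3 + P : ℕ) : ℝ) * QQ c ω r l l / 2 ^ K0 := by positivity
  have hrhs : 0 ≤ (q:ℝ) ^ B * (((C7 + C8 + 3 + P : ℕ) : ℝ) * (La q : ℝ) ^ (n + 1) * (uu q : ℝ) ^ 2 +
      ((C7 + C8 + 3 + P : ℕ) : ℝ) * QQ c ω r l l / 2 ^ K0 + ii (NCv c X Y t ω r b l) *
        (((C7 + C8 + 3 + P : ℕ) : ℝ) * (La q : ℝ) ^ (n + 3))) := by
    have := ii_nonneg (NCv c X Y t ω r b l)
    positivity
  -- (0) no point agrees with the corner
  by_cases hex : ∃ ν, Agr0 c X Y ω l r ν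
  swap
  · push Not at hex
    have h0 : ∀ z : Blk q B, TT c (cD M B X Y) t (Function.update ω j z) r l *
        ii (Gx c K0 (Function.update ω j z) l r) = 0 := by
      intro z
      rw [TT_eq_zero (fun ν hν => hex ν ((Agr0_update c X Y ω hjr z l ν).1 hν)) t, zero_mul]
    rw [Finset.sum_eq_zero (fun z _ => h0 z), abs_zero]
    exact hrhs
  obtain ⟨ν0, hν0⟩ := hex
  -- (1) non aligned
  by_cases hal : ∃ ν, Agr0 c X Y ω l r ν ∧ xX M B X - ν ∈ Vb q M B ((b:ℕ)+1)
  swap
  · push Not at hal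
    rw [nonaligned hc hl K0 X Y t ν0 hν0 hal, abs_zero]
    exact hrhs
  obtain ⟨ν, hν, hνV⟩ := hal
  by_cases hu : uO c X Y t ω l r ν = 0
  swap
  · -- (2) aligned, not of corner type
    have hNC : NCv c X Y t ω r b l := ⟨ν, hν, hνV, hu⟩
    rw [ii_true hNC, one_mul]
    have h1 : |∑ z : Blk q B, TT c (cD M B X Y) t (Function.update ω j z) r l *
        ii (Gx c K0 (Function.update ω j z) l r)| ≤
        ∑ z : Blk q B, RR c (Function.update ω j z) l r := by
      refine (Finset.abs_sum_le_sum_abs _ _).trans (Finset.sum_le_sum fun z _ => ?_)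
      rw [abs_mul, abs_of_nonneg (ii_nonneg _)]
      have h2 := (h10 n q M B c (Function.update ω j z) r l hr (hEz z) X Y t).1
      calc |TT c (cD M B X Y) t (Function.update ω j z) r l| *
            ii (Gx c K0 (Function.update ω j z) l r)
          ≤ |TT c (cD M B X Y) t (Function.update ω j z) r l| * 1 :=
            mul_le_mul_of_nonneg_left (ii_le_one _) (abs_nonneg _)
        _ ≤ _ := by rw [mul_one]; exact h2
    refine h1.trans ((h8 q h3q M B c hc K7 hK7 ω r b l hl hE).trans ?_)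
    apply mul_le_mul_of_nonneg_left _ hqB.le
    have h3 : (C8 : ℝ) * (La q : ℝ) ^ (n+3) ≤
        ((C7 + C8 + 3 + P : ℕ) : ℝ) * (La q : ℝ) ^ (n+3) := by
      apply mul_le_mul_of_nonneg_right _ hLnn3
      exact_mod_cast (by omega : C8 ≤ C7 + C8 + 3 + P)
    have h4 : 0 ≤ ((C7 + C8 + 3 + P : ℕ) : ℝ) * (La q : ℝ) ^ (n + 1) * (uu q : ℝ) ^ 2 := by
      positivity
    linarith
  -- (3) corner type
  have huz : ∀ z, uO c X Y t (Function.update ω j z) l r ν = 0 := by
    intro z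
    rw [← hu]
    funext o
    cases o with
    | none =>
      show t r - row M (Function.update ω j z) r (xX M B X - ν) - Y r =
        t r - row M ω r (xX M B X - ν) - Y r
      rw [hj, row_update_Vb ω r b z _ hνV]
    | some a => rfl
  have hTT : ∀ z, ((TT c (cD M B X Y) t (Function.update ω j z) r l : ℝ) : ℂ) =
      ∑ H : Option (Fin (n+2)) → ZMod q,
        (ii (H none ≠ 0 ∧ Rel c (Function.update ω j z) l r H) : ℂ) *
        ((q:ℂ) ^ D * FF M B X Y l r H) := by
    intro z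
    have h1 := (h10 n q M B c (Function.update ω j z) r l hr (hEz z) X Y t).2 ν
      ((Agr0_update c X Y ω hjr z l ν).2 hν)
    rw [h1]
    refine sum_congr rfl fun H _ => ?_
    rw [huz z]
    have h2 : ∑ o, H o * (0 : Option (Fin (n+2)) → ZMod q) o = 0 := by simp
    rw [h2, AddChar.map_zero_eq_one, mul_one]
    rfl
  set DI := (univ : Finset (Option (Fin (n+2)) → ZMod q)).filter (fun H => H none ≠ 0) with hDI
  set dir : (Option (Fin (n+2)) → ZMod q) → Prop := fun H =>
    BX (2 ^ (n + 6)) D K0 H with hdir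
  set NR : (Option (Fin (n+2)) → ZMod q) → ℝ := fun H =>
    (((univ : Finset (Blk q B)).filter (fun z => Rel c (Function.update ω j z) l r H)).card : ℝ)
    with hNR
  set NG : (Option (Fin (n+2)) → ZMod q) → ℝ := fun H =>
    (((univ : Finset (Blk q B)).filter (fun z => Rel c (Function.update ω j z) l r H ∧
      ¬ Gx c K0 (Function.update ω j z) l r)).card : ℝ) with hNG
  have hcR : ∀ H ∈ DI, NR H * (q:ℝ) ^ D = (q:ℝ) ^ B := by
    intro H hH
    have h1 := card_Rel hc hE hK7 hl H (mem_filter.1 hH).2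
    rw [← hj, ← hD] at h1
    simp only [hNR]
    exact_mod_cast h1
  -- the total sum
  have hgen : ∀ w : Blk q B → ℝ, ∑ z : Blk q B,
      ((TT c (cD M B X Y) t (Function.update ω j z) r l : ℝ) : ℂ) * (w z : ℂ) =
      ∑ H ∈ DI, ((q:ℂ) ^ D * FF M B X Y l r H) *
        ((∑ z : Blk q B, ii (Rel c (Function.update ω j z) l r H) * w z : ℝ) : ℂ) := by
    intro w
    rw [hDI, sum_filter]
    have h1 : ∀ z : Blk q B, ((TT c (cD M B X Y) t (Function.update ω j z) r l : ℝ) : ℂ) *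
        (w z : ℂ) = ∑ H : Option (Fin (n+2)) → ZMod q,
        (ii (H none ≠ 0 ∧ Rel c (Function.update ω j z) l r H) : ℂ) *
        ((q:ℂ) ^ D * FF M B X Y l r H) * (w z : ℂ) := by
      intro z
      rw [hTT z, sum_mul]
    rw [sum_congr rfl (fun z _ => h1 z), sum_comm]
    refine sum_congr rfl fun H _ => ?_
    by_cases hH : H none ≠ 0
    · rw [if_pos hH]
      push_cast
      rw [mul_sum]
      refine sum_congr rfl fun z _ => ?_
      have h2 : ii (H none ≠ 0 ∧ Rel c (Function.update ω j z) l r H) =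
          ii (Rel c (Function.update ω j z) l r H) := ii_congr (and_iff_right hH)
      rw [h2]
      ring
    · rw [if_neg hH]
      apply sum_eq_zero
      intro z _
      rw [ii_false (fun h => hH h.1)]
      simp
  have hR1 : ∀ H, ∑ z : Blk q B, ii (Rel c (Function.update ω j z) l r H) * 1 = NR H := by
    intro H
    simp only [mul_one, hNR]
    rw [card_eq_sum_ii]
  have hG1 : ∀ H, ∑ z : Blk q B, ii (Rel c (Function.update ω j z) l r H) *
      ii (¬ Gx c K0 (Function.update ω j z) l r) = NG H := by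
    intro H
    simp only [hNG]
    rw [card_eq_sum_ii]
    exact sum_congr rfl fun z _ => (ii_and _ _).symm
  have htot : ∑ z : Blk q B, ((TT c (cD M B X Y) t (Function.update ω j z) r l : ℝ) : ℂ) = 0 := by
    have h1 := hgen (fun _ => 1)
    simp only [Complex.ofReal_one, mul_one] at h1
    rw [h1]
    have h2 : ∀ H ∈ DI, ((q:ℂ) ^ D * FF M B X Y l r H) *
        ((∑ z : Blk q B, ii (Rel c (Function.update ω j z) l r H) : ℝ) : ℂ) =
        (q:ℂ) ^ B * FF M B X Y l r H := by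
      intro H hH
      have h3 : ∑ z : Blk q B, ii (Rel c (Function.update ω j z) l r H) = NR H := by
        rw [← hR1 H]; simp only [mul_one]
      rw [h3]
      have h4 : ((NR H : ℝ) : ℂ) * (q:ℂ) ^ D = (q:ℂ) ^ B := by exact_mod_cast hcR H hH
      rw [← h4]
      ring
    rw [sum_congr rfl h2, ← mul_sum, hDI, sum_FF, mul_zero]
  have hneg : ((∑ z : Blk q B, TT c (cD M B X Y) t (Function.update ω j z) r l *
      ii (Gx c K0 (Function.update ω j z) l r) : ℝ) : ℂ) =
      - ∑ H ∈ DI, ((q:ℂ) ^ D * FF M B X Y l r H) * ((NG H : ℝ) : ℂ) := by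
    have h1 := hgen (fun z => ii (¬ Gx c K0 (Function.update ω j z) l r))
    simp only [hG1] at h1
    rw [← h1]
    push_cast
    have h2 : ∀ z : Blk q B, ((TT c (cD M B X Y) t (Function.update ω j z) r l : ℝ) : ℂ) *
        ((ii (Gx c K0 (Function.update ω j z) l r) : ℝ) : ℂ) =
        ((TT c (cD M B X Y) t (Function.update ω j z) r l : ℝ) : ℂ) -
        ((TT c (cD M B X Y) t (Function.update ω j z) r l : ℝ) : ℂ) *
        ((ii (¬ Gx c K0 (Function.update ω j z) l r) : ℝ) : ℂ) := by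
      intro z
      by_cases h3 : Gx c K0 (Function.update ω j z) l r
      · rw [ii_true h3, ii_false (not_not.2 h3)]
        simp
      · rw [ii_false h3, ii_true h3]
        simp
    rw [sum_congr rfl (fun z _ => h2 z), sum_sub_distrib, htot, zero_sub]
  have hnorm : |∑ z : Blk q B, TT c (cD M B X Y) t (Function.update ω j z) r l *
      ii (Gx c K0 (Function.update ω j z) l r)| =
      ‖∑ H ∈ DI, ((q:ℂ) ^ D * FF M B X Y l r H) * ((NG H : ℝ) : ℂ)‖ := by
    rw [← Real.norm_eq_abs, ← Complex.norm_real, hneg, norm_neg]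
  rw [hnorm, ← sum_filter_add_sum_filter_not DI dir]
  -- direct relations
  have hd1 : ‖∑ H ∈ DI.filter dir, ((q:ℂ) ^ D * FF M B X Y l r H) * ((NG H : ℝ) : ℂ)‖ ≤
      (q:ℝ) ^ B * (C7 * (La q : ℝ) ^ (n+1) * (uu q : ℝ) ^ 2) := by
    have h1 : ∀ H ∈ DI.filter dir, ((q:ℂ) ^ D * FF M B X Y l r H) * ((NG H : ℝ) : ℂ) =
        (q:ℂ) ^ B * FF M B X Y l r H := by
      intro H hH
      rw [mem_filter] at hH
      have h2 : NG H = NR H := by
        simp only [hNG, hNR]
        congr 2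
        ext z
        rw [mem_filter, mem_filter]
        refine and_congr_right fun _ => and_iff_left_of_imp fun h3 h4 => ?_
        exact h4 H (mem_filter.1 hH.1).2 h3 hH.2
      rw [h2]
      have h4 : ((NR H : ℝ) : ℂ) * (q:ℂ) ^ D = (q:ℂ) ^ B := by exact_mod_cast hcR H hH.1
      rw [← h4]
      ring
    rw [sum_congr rfl h1, ← mul_sum, norm_mul, norm_pow, Complex.norm_natCast]
    apply mul_le_mul_of_nonneg_left _ hqB.le
    have h5 := h7 q hS (by omega) D K0 (tO X Y l r) (fO M B Y r) hD1 hD2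
      (le_trans (Nat.mul_le_mul_right _ (by omega)) (le_trans (Nat.le_add_right _ _) hK0)) hK0L (tO_lt X Y l r)
      (fun o => (fO_bd Y r o).1) (fun o => (fO_bd Y r o).2)
    have h6 : DI.filter dir = (univ : Finset (Option (Fin (n + 2)) → ZMod q)).filter
        (fun H => H none ≠ 0 ∧ BX (2 ^ (n + 6)) D K0 H) := by
      rw [hDI, filter_filter]
    rw [h6]
    exact h5
  -- the other ones
  have hd2 : ‖∑ H ∈ DI.filter (fun H => ¬ dir H),
      ((q:ℂ) ^ D * FF M B X Y l r H) * ((NG H : ℝ) : ℂ)‖ ≤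
      (q:ℝ) ^ B * (2 ^ (n+3) * QQ c ω r l l / 2 ^ K0) := by
    have h0 : ∀ H ∈ DI.filter (fun H => ¬ dir H),
        ‖((q:ℂ) ^ D * FF M B X Y l r H) * ((NG H : ℝ) : ℂ)‖ ≤
        (q:ℝ) ^ B * (SS c K0 ω r l H * wm H) := by
      intro H hH
      rw [mem_filter] at hH
      have h1 := nondirect (c := c) (b := b) (ω := ω) K0 H (mem_filter.1 hH.1).2 hH.2
      rw [← hj] at h1
      have h2 : NG H ≤ SS c K0 ω r l H * NR H := h1
      have hNG0 : 0 ≤ NG H := Nat.cast_nonneg _
      rw [norm_mul, norm_mul, norm_pow, Complex.norm_natCast, Complex.norm_real,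
        Real.norm_of_nonneg hNG0]
      have h3 := norm_FF (M := M) (B := B) X Y l r H
      calc (q:ℝ) ^ D * ‖FF M B X Y l r H‖ * NG H
          ≤ (q:ℝ) ^ D * wm H * (SS c K0 ω r l H * NR H) := by
            apply mul_le_mul (mul_le_mul_of_nonneg_left h3 (by positivity)) h2 hNG0
            exact mul_nonneg (by positivity) (wm_nonneg H)
        _ = (NR H * (q:ℝ) ^ D) * (SS c K0 ω r l H * wm H) := by ring
        _ = _ := by rw [hcR H hH.1]
    refine (norm_sum_le _ _).trans ((sum_le_sum h0).trans ?_)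
    rw [← mul_sum]
    apply mul_le_mul_of_nonneg_left _ hqB.le
    refine le_trans ?_ (sum_SS_le c K0 ω r l)
    refine sum_le_sum_of_subset_of_nonneg (filter_subset _ _) fun H _ _ => ?_
    exact mul_nonneg (SS_nonneg _ _ _ _ _ _) (wm_nonneg H)
  refine (norm_add_le _ _).trans ((add_le_add hd1 hd2).trans ?_)
  rw [← mul_add]
  apply mul_le_mul_of_nonneg_left _ hqB.le
  have h3 : (C7 : ℝ) * (La q : ℝ) ^ (n+1) * (uu q : ℝ) ^ 2 ≤
      ((C7 + C8 + 3 + P : ℕ) : ℝ) * (La q : ℝ) ^ (n+1) * (uu q : ℝ) ^ 2 := by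
    rw [mul_assoc, mul_assoc]
    apply mul_le_mul_of_nonneg_right _ hLnn
    exact_mod_cast (by omega : C7 ≤ C7 + C8 + 3 + P)
  have h4 : 0 ≤ ii (NCv c X Y t ω r b l) * (((C7 + C8 + 3 + P : ℕ) : ℝ) * (La q : ℝ) ^ (n + 3)) :=
    mul_nonneg (ii_nonneg _) (by positivity)
  have h5 : 2 ^ (n + 3) * QQ c ω r l l / 2 ^ K0 ≤
      ((C7 + C8 + 3 + P : ℕ) : ℝ) * QQ c ω r l l / 2 ^ K0 := by
    apply div_le_div_of_nonneg_right _ (by positivity)
    apply mul_le_mul_of_nonneg_right _ hQQ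
    have h6 : ((2 ^ (n + 3) : ℕ) : ℝ) ≤ ((C7 + C8 + 3 + P : ℕ) : ℝ) := by
      rw [← hP]
      exact_mod_cast (by omega : P ≤ C7 + C8 + 3 + P)
    push_cast at h6 ⊢
    exact h6
  linarith

end main

end Pool.Agent.R329.SX
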