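import Pool.Agent.R329.SX.Fi
import Pool.Agent.R329.SX.NT1
import Pool.Agent.R329.SX.NT2
import Pool.Agent.R329.SX.P1
import Pool.Agent.R329.SX.P2
import Pool.Agent.R329.SX.P3
import Pool.Agent.R329.SX.P4
import Pool.Agent.Y258.SX.XFinal

set_option autoImplicit false

/-!
# Uniform power saving 1/8 in the star discrepancy in all dimensions `d ≥ 3`: assembly
-/

namespace Pool.Agent.R329.SX

open Finset Pool.Agent.Y258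

theorem fy6 : St_Y6 := y6 y4 Pool.Agent.Y899.SD.A6a Pool.Agent.Y899.SD.A6b

theorem fy7 : St_Y7 :=
  y7 y2 y4 (Pool.Agent.Y474.SD.a5 Pool.Agent.Y474.SD.a4) Pool.Agent.Y899.SD.A6a

theorem fy8 : St_Y8 := y8 y5 Pool.Agent.Y899.SD.A6a

theorem fy9 : St_Y9 := y9 y3 Pool.Agent.Y899.SD.A6a

theorem fy18 : St_Y18 :=
  Pool.Agent.Y258.X.y18_of Pool.Agent.Y359.SD.c1 Pool.Agent.Y359.SD.c2 Pool.Agent.Y283.SD.C3
    Pool.Agent.Y46.SX.xq'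
    (y10 fy6) (Pool.Agent.Y359.SD.c8b Pool.Agent.Y899.SD.A6a)
    Pool.Agent.Y838.SD.c10 (y11 fy7 Pool.Agent.Y258.X.fc8 Pool.Agent.Y838.SD.c10)
    (y12 Pool.Agent.Y899.SD.A6a fy8)
    (y13 Pool.Agent.Y899.SD.A6a fy6)
    (y14 fy9 Pool.Agent.Y258.X.fc8) Pool.Agent.Y272.SD.st_C16 Pool.Agent.Y272.SD.st_C17

theorem cl5 (k : ℕ) (hk : 1 ≤ k) : Cl 5 k :=
  all5 fy18 Pool.Agent.Y141.SDC19.C19 Pool.Agent.Y245.SD.C20 k hk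

/-- Uniform power saving, boxes `[0, x)`. -/
theorem star_open (n : ℕ) (hn : 1 ≤ n) : ∃ C : ℝ, 0 < C ∧ ∀ N : ℕ, 3 ≤ N →
    ∃ ξ : Fin N → Fin (n + 2) → ℝ, (∀ i j, 0 ≤ ξ i j ∧ ξ i j < 1) ∧
      ∀ x : Fin (n + 2) → ℝ, (∀ j, 0 ≤ x j) → (∀ j, x j ≤ 1) →
      |(((univ : Finset (Fin N)).filter (fun i => ∀ j, ξ i j < x j)).card : ℝ)
        - N * ∏ j, x j| ≤ C * (Real.log N) ^ ((n:ℝ) + 1 - 1 / 8) *
          (Real.log (Real.log N)) ^ 2 := by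
  have := fin_of 5 n (cl5 n hn)
  norm_num at this ⊢
  exact this

/-- Uniform power saving, boxes `[0, x]`. -/
theorem star_closed (n : ℕ) (hn : 1 ≤ n) : ∃ C : ℝ, 0 < C ∧ ∀ N : ℕ, 3 ≤ N →
    ∃ ξ : Fin N → Fin (n + 2) → ℝ,
    (∀ i j, 0 ≤ ξ i j ∧ ξ i j < 1) ∧ ∀ x : Fin (n + 2) → ℝ, (∀ j, 0 ≤ x j) → (∀ j, x j ≤ 1) →
      ∀ S : Finset (Fin N), (∀ i, i ∈ S ↔ ∀ j, ξ i j ≤ x j) →
      |(S.card : ℝ) - N * ∏ j, x j| ≤ C * (Real.log N) ^ ((n:ℝ) + 1 - 1 / 8) *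
          (Real.log (Real.log N)) ^ 2 := by
  obtain ⟨C, hC, h⟩ := star_open n hn
  refine ⟨C, hC, fun N hN => ?_⟩
  obtain ⟨ξ, hξ, h1⟩ := h N hN
  refine ⟨ξ, hξ, fun x hx0 hx1 S hS => ?_⟩
  refine H470D4.closed_of_open_all (fun i j => (hξ i j).2) ?_ hx0 hx1 hS
  intro y hy0 hy1 S' hS'
  have h2 : S' = (univ : Finset (Fin N)).filter (fun i => ∀ j, ξ i j < y j) := by
    ext i
    rw [mem_filter, hS' i]
    simp only [mem_univ, true_and]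
  rw [h2]
  exact h1 y hy0 hy1

end Pool.Agent.R329.SX
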