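import Pool.Agent.R329.SX.Su
import Pool.Agent.Y319.SX.Nbr

set_option autoImplicit false

/-!
# The sum over non-parallel neighbours in dimension two, for primes suitable on the average
-/

namespace Pool.Agent.R329.SX

open Finset Pool.Agent.H935R2.PS Pool.Agent.Y258 Pool.Agent.Y316.SD
open Pool.Agent.H935R2.PS.E4 (vma_lt vma_inj mem_coinc)

theorem NP_le_coinc {q : ℕ} {ι : Type} [Fintype ι] [DecidableEq ι] [Fact q.Prime]
    (b b' : ι → ℕ) {u v : ι} (huniv : (univ : Finset ι) = {u, v}) :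
    (NP (q := q) b b').card ≤ (coinc q (b u) (b' u) (b v) (b' v)).card := by
  classical
  have hcases : ∀ a : ι, a = u ∨ a = v := by
    intro a
    have := mem_univ a
    rw [huniv, mem_insert, mem_singleton] at this
    exact this
  refine card_le_card_of_injOn (fun p => ((p.1 u).valMinAbs, (p.2 * p.1 u).valMinAbs,
    (p.1 v).valMinAbs, (p.2 * p.1 v).valMinAbs)) ?_ ?_
  · rintro ⟨h, c⟩ hp
    rw [mem_coe] at hp
    unfold NP at hp
    rw [mem_filter] at hp
    obtain ⟨-, hc, ha, hnp⟩ := hp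
    simp only at hc ha hnp
    refine mem_coinc c _ _ _ _ _ _ _ _ (vma_lt (ha u).2.1) (vma_lt (ha u).2.2)
      (vma_lt (ha v).2.1) (vma_lt (ha v).2.2) ?_ ?_ ?_
    · simp only [ZMod.coe_valMinAbs]
    · simp only [ZMod.coe_valMinAbs]
    · intro he
      apply hnp
      intro i j
      rcases hcases i with rfl | rfl <;> rcases hcases j with rfl | rfl
      · ring
      · simp only
        linear_combination he
      · simp only
        linear_combination (-1 : ℤ) * he
      · ring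
  · rintro ⟨h, c⟩ hp ⟨h', c'⟩ hp' he
    rw [mem_coe] at hp
    unfold NP at hp
    rw [mem_filter] at hp
    obtain ⟨-, hc, ha, hnp⟩ := hp
    simp only at hc ha hnp
    simp only [Prod.mk.injEq] at he
    obtain ⟨e1, e2, e3, -⟩ := he
    have e1' := vma_inj e1
    have e3' := vma_inj e3
    have e2' := vma_inj e2
    rw [← e1'] at e2'
    have e4 := mul_right_cancel₀ (ha u).1 e2'
    rw [Prod.mk.injEq]
    refine ⟨?_, e4⟩
    funext a
    rcases hcases a with rfl | rfl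
    · exact e1'
    · exact e3'

open Classical in
/-- two coordinates: the neighbour sum is bounded by the average over the boxes -/
theorem nbr2 {q : ℕ} [Fact q.Prime] (hSu : Su q) {ι : Type} [Fintype ι] [DecidableEq ι]
    (hι : Fintype.card ι = 2) (D K0 : ℕ) (hD : D < 2) (hK0 : 5 * uu q ≤ K0)
    (τ : (ι → ℕ) → ℝ) (hτ0 : ∀ b, 0 ≤ τ b)
    (hτ : ∀ b, τ b * 2 ^ (K0 + ∑ a, b a) ≤ 2 ^ (D * La q))
    (S : Finset (ι → ZMod q)) (hS0 : ∀ h ∈ S, ∀ a, h a ≠ 0)
    (f : (ι → ZMod q) → ℝ)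
    (hf : ∀ h ∈ S, f h ≤ ∑ c ∈ (univ : Finset (ZMod q)).filter
      (fun c => c ≠ 0 ∧ ¬ Prl h (fun a => c * h a)), τ (fun a => dl (c * h a))) :
    ∑ h ∈ S, wt h * f h ≤ 2 ^ 21 := by
  have hq2 : 2 ≤ q := (Fact.out : q.Prime).two_le
  have hq0 : (0:ℝ) < q := by exact_mod_cast (by omega : 0 < q)
  obtain ⟨L, hL⟩ : ∃ L, L = La q := ⟨_, rfl⟩
  have h2L : (2:ℝ) ^ La q ≤ q := by exact_mod_cast La_le (q := q)
  have hcard := hι
  rw [← card_univ] at hcard
  obtain ⟨u, v, huv, huniv⟩ := card_eq_two.mp hcard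
  have hsum : ∀ b : ι → ℕ, ∑ a, b a = b u + b v := fun b => by
    rw [huniv, sum_pair huv]
  set Q : Finset ((ι → ZMod q) × ZMod q) := univ.filter (fun p =>
    (∀ a, p.1 a ≠ 0) ∧ (p.2 ≠ 0 ∧ ¬ Prl p.1 (fun a => p.2 * p.1 a))) with hQ
  -- pass to pairs
  have h1 : ∑ h ∈ S, wt h * f h ≤ ∑ p ∈ Q, wt p.1 * τ (fun a => dl (p.2 * p.1 a)) := by
    calc ∑ h ∈ S, wt h * f h ≤ ∑ h ∈ S, wt h * ∑ c ∈ (univ : Finset (ZMod q)).filter
          (fun c => c ≠ 0 ∧ ¬ Prl h (fun a => c * h a)), τ (fun a => dl (c * h a)) :=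
          sum_le_sum fun h hh => mul_le_mul_of_nonneg_left (hf h hh) (wt_nonneg h)
      _ ≤ ∑ h ∈ (univ : Finset (ι → ZMod q)).filter (fun h => ∀ a, h a ≠ 0),
          wt h * ∑ c ∈ (univ : Finset (ZMod q)).filter
          (fun c => c ≠ 0 ∧ ¬ Prl h (fun a => c * h a)), τ (fun a => dl (c * h a)) := by
          refine sum_le_sum_of_subset_of_nonneg ?_ (fun h _ _ =>
            mul_nonneg (wt_nonneg h) (sum_nonneg fun c _ => hτ0 _))
          intro h hh
          rw [mem_filter]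
          exact ⟨mem_univ _, hS0 h hh⟩
      _ = _ := by
          rw [hQ, sum_filter, sum_filter, Fintype.sum_prod_type]
          refine sum_congr rfl fun h _ => ?_
          by_cases hc : ∀ a, h a ≠ 0
          · rw [if_pos hc, mul_sum, sum_filter]
            refine sum_congr rfl fun c _ => if_congr ?_ rfl rfl
            exact ⟨fun h5 => ⟨hc, h5⟩, fun h5 => h5.2⟩
          · rw [if_neg hc]
            symm
            refine sum_eq_zero fun c _ => ?_
            rw [if_neg]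
            intro hcc
            exact hc hcc.1
  -- the boxes
  have hmapQ : ∀ p ∈ Q, ((fun a => dl (p.1 a), fun a => dl (p.2 * p.1 a)) :
      (ι → ℕ) × (ι → ℕ)) ∈ Bx ι (La q) ×ˢ Bx ι (La q) := by
    intro p hp
    rw [hQ, mem_filter] at hp
    rw [mem_product, mem_Bx, mem_Bx]
    exact ⟨fun a => dl_lt hq2 _ (hp.2.1 a),
      fun a => dl_lt hq2 _ (mul_ne_zero hp.2.2.1 (hp.2.1 a))⟩
  have h2 : ∑ p ∈ Q, wt p.1 * τ (fun a => dl (p.2 * p.1 a)) ≤
      ∑ bb ∈ Bx ι (La q) ×ˢ Bx ι (La q),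
        nco q (bb.1 u, bb.2 u, bb.1 v, bb.2 v) * (1 / 2 ^ K0) := by
    rw [← Finset.sum_fiberwise_of_maps_to hmapQ]
    refine sum_le_sum fun bb hbb => ?_
    obtain ⟨b, b'⟩ := bb
    simp only
    have h3 : ∀ p ∈ Q.filter (fun p => ((fun a => dl (p.1 a), fun a => dl (p.2 * p.1 a)) :
        (ι → ℕ) × (ι → ℕ)) = (b, b')), wt p.1 * τ (fun a => dl (p.2 * p.1 a)) ≤
        1 / 2 ^ (∑ a, b a) * τ b' := by
      intro p hp
      rw [mem_filter, hQ, mem_filter, Prod.mk.injEq] at hp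
      obtain ⟨⟨-, h0, -⟩, e1, e2⟩ := hp
      rw [e2]
      refine mul_le_mul_of_nonneg_right ?_ (hτ0 _)
      have := wt_le p.1 h0
      rwa [← e1]
    refine (sum_le_sum h3).trans ?_
    rw [sum_const, nsmul_eq_mul]
    have h4 : ((Q.filter (fun p => ((fun a => dl (p.1 a), fun a => dl (p.2 * p.1 a)) :
        (ι → ℕ) × (ι → ℕ)) = (b, b'))).card : ℝ) ≤
        ((coinc q (b u) (b' u) (b v) (b' v)).card : ℝ) := by
      have h5 : Q.filter (fun p => ((fun a => dl (p.1 a), fun a => dl (p.2 * p.1 a)) :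
        (ι → ℕ) × (ι → ℕ)) = (b, b')) ⊆ NP (q := q) b b' := by
        intro p hp
        rw [mem_filter, hQ, mem_filter, Prod.mk.injEq] at hp
        obtain ⟨⟨-, h0, h6, h7⟩, e1, e2⟩ := hp
        unfold NP
        rw [mem_filter]
        exact ⟨mem_univ _, h6, fun a => ⟨h0 a, congrFun e1 a, congrFun e2 a⟩, h7⟩
      exact_mod_cast (card_le_card h5).trans (NP_le_coinc b b' huniv)
    have hτb := hτ b'
    have hDL : (2:ℝ) ^ (D * La q) ≤ q := by
      refine le_trans (pow_le_pow_right₀ (by norm_num) ?_) h2L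
      have : D * La q ≤ 1 * La q := Nat.mul_le_mul_right _ (by omega)
      omega
    have h6 : τ b' ≤ q / 2 ^ (K0 + ∑ a, b' a) := by
      rw [le_div_iff₀ (by positivity)]
      exact hτb.trans hDL
    calc _ ≤ ((coinc q (b u) (b' u) (b v) (b' v)).card : ℝ) *
          (1 / 2 ^ (∑ a, b a) * (q / 2 ^ (K0 + ∑ a, b' a))) := by
          refine mul_le_mul h4 (mul_le_mul_of_nonneg_left h6 (by positivity)) ?_
            (Nat.cast_nonneg _)
          exact mul_nonneg (by positivity) (hτ0 _)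
      _ = _ := by
          unfold nco
          simp only
          rw [hsum b, hsum b', pow_add, pow_add, pow_add, pow_add, pow_add, pow_add]
          field_simp
  -- the average
  have h3 : ∑ bb ∈ Bx ι (La q) ×ˢ Bx ι (La q),
      nco q (bb.1 u, bb.2 u, bb.1 v, bb.2 v) ≤ ∑ b ∈ Ix (La q), nco q b := by
    have hinj : Set.InjOn (fun bb : (ι → ℕ) × (ι → ℕ) => (bb.1 u, bb.2 u, bb.1 v, bb.2 v))
        ((Bx ι (La q) ×ˢ Bx ι (La q) : Finset ((ι → ℕ) × (ι → ℕ))) : Set ((ι → ℕ) × (ι → ℕ))) := by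
      rintro ⟨b, b'⟩ - ⟨d, d'⟩ - he
      simp only [Prod.mk.injEq] at he
      obtain ⟨e1, e2, e3, e4⟩ := he
      have hcases : ∀ a : ι, a = u ∨ a = v := by
        intro a
        have := mem_univ a
        rw [huniv, mem_insert, mem_singleton] at this
        exact this
      rw [Prod.mk.injEq]
      constructor
      · funext a
        rcases hcases a with rfl | rfl
        · exact e1
        · exact e3
      · funext a
        rcases hcases a with rfl | rfl
        · exact e2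
        · exact e4
    rw [← Finset.sum_image (f := nco q)
      (g := fun bb : (ι → ℕ) × (ι → ℕ) => (bb.1 u, bb.2 u, bb.1 v, bb.2 v)) hinj]
    refine sum_le_sum_of_subset_of_nonneg ?_ (fun b _ _ => nco_nonneg q b)
    intro x hx
    rw [mem_image] at hx
    obtain ⟨bb, hbb, rfl⟩ := hx
    rw [mem_product, mem_Bx, mem_Bx] at hbb
    have a1 := hbb.1 u
    have a2 := hbb.1 v
    have a3 := hbb.2 u
    have a4 := hbb.2 v
    simp only [Ix, mem_product, mem_range]
    omega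
  refine h1.trans (h2.trans ?_)
  rw [← sum_mul]
  have h5 : ((La q : ℕ) : ℝ) ^ 5 ≤ 2 ^ K0 := by
    have e1 : La q ^ 5 ≤ 2 ^ K0 := by
      calc La q ^ 5 ≤ (2 ^ uu q) ^ 5 := Nat.pow_le_pow_left (La_lt_uu q).le _
        _ = 2 ^ (5 * uu q) := by rw [← pow_mul, mul_comm]
        _ ≤ 2 ^ K0 := Nat.pow_le_pow_right (by norm_num) hK0
    exact_mod_cast e1
  calc (∑ bb ∈ Bx ι (La q) ×ˢ Bx ι (La q), nco q (bb.1 u, bb.2 u, bb.1 v, bb.2 v)) * (1 / 2 ^ K0)
      ≤ (2 ^ 21 * (La q : ℝ) ^ 5) * (1 / 2 ^ K0) :=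
        mul_le_mul_of_nonneg_right (h3.trans hSu.2) (by positivity)
    _ ≤ (2 ^ 21 * 2 ^ K0) * (1 / 2 ^ K0) := by gcongr
    _ = 2 ^ 21 := by field_simp

end Pool.Agent.R329.SX
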