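import Pool.Agent.R329.SX.Stm
import Pool.Agent.Y496.SD.Num

set_option autoImplicit false

/-!
# Uniform power saving 1/8: choice of the parameters
-/

namespace Pool.Agent.R329.SX

open Finset Pool.Agent.H470D4 Pool.Agent.Y258
open Pool.Agent.H935R2.PS (La uu nn dl mx)

/-- one stage, with `M = L ^ e` and `B = L ^ 2` -/
def Stage (n e : ℕ) : Prop := ∃ C : ℕ, ∀ (q : ℕ) [Fact q.Prime],
  Su q → C ≤ q → ∀ c : Flg q (La q ^ e) (La q ^ 2) n, IsFlags c →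
  ∃ ω : Pth q (La q ^ 2), (∀ r ≤ La q ^ e * La q ^ 2, Exc c ω r) ∧
    ∀ (X : Fin (n+2) → ℕ → ZMod q) (Y : ℕ → ZMod q),
      (∀ a j, La q ^ e * La q ^ 2 ≤ j → X a j = 0) → (∀ j, La q ^ e * La q ^ 2 ≤ j → Y j = 0) →
      |∑ r ∈ range (La q ^ e * La q ^ 2), XX c (cD (La q ^ e) (La q ^ 2) X Y) ω r| ≤
        C * (((La q : ℝ) ^ (e + 2)) ^ (n + 2) * (La q : ℝ) ^ (n + 1) * (uu q : ℝ) ^ 2 +
          (La q : ℝ) ^ (e + n + 10))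

/-- the arithmetic of the parameters -/
lemma factsX (n e C N1 L u q : ℕ) (hLN : N1 ≤ L) (h2 : 2 ≤ N1)
    (hN1 : C * 2 ^ (2 * n + 6) + 2 ^ C * 2 ^ (n + 6) ≤ N1) (hLq : 2 ^ L ≤ q) (hu1 : 1 ≤ u)
    (hLp : L ^ ((e + 2) * (2 * n + 6) + n + 14) ≤ 2 ^ L) (hu : 2 ^ u ≤ 2 * L) :
    ∃ K0 : ℕ, (n + 6) * u + C ≤ K0 ∧ K0 ≤ L ∧
      C * (L ^ 2 * (L ^ e * L ^ 2 + 1) ^ n * L ^ (n + 4)) ≤ 2 ^ K0 ∧
      C * (L ^ e * L ^ 2 + 1) ^ (2 * n + 6) ≤ q ∧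
      2 ^ K0 ≤ 2 * (C * 2 ^ n + 2 ^ C * 2 ^ (n + 6)) *
        ((L ^ (e + 2)) ^ n * L ^ (n + 6) + L ^ (n + 6)) := by
  have hL2 : 2 ≤ L := by omega
  have hCL : C * 2 ^ (2 * n + 6) ≤ L := by omega
  have hm : L ^ e * L ^ 2 = L ^ (e + 2) := (pow_add L e 2).symm
  have hmpos : 1 ≤ L ^ (e + 2) := Nat.one_le_pow _ _ (by omega)
  have hm2 : L ^ (e + 2) + 1 ≤ 2 * L ^ (e + 2) := by omega
  obtain ⟨x1, hx1⟩ : ∃ x : ℕ, x = C * (L ^ 2 * (L ^ e * L ^ 2 + 1) ^ n * L ^ (n + 4)) := ⟨_, rfl⟩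
  obtain ⟨x2, hx2⟩ : ∃ x : ℕ, x = 2 ^ ((n + 6) * u + C) := ⟨_, rfl⟩
  have b1 : x1 ≤ C * 2 ^ n * ((L ^ (e + 2)) ^ n * L ^ (n + 6)) := by
    rw [hx1, hm]
    calc C * (L ^ 2 * (L ^ (e + 2) + 1) ^ n * L ^ (n + 4))
        ≤ C * (L ^ 2 * (2 * L ^ (e + 2)) ^ n * L ^ (n + 4)) := by gcongr
      _ = C * 2 ^ n * ((L ^ (e + 2)) ^ n * L ^ (n + 6)) := by rw [mul_pow]; ring
  have b2 : x2 ≤ 2 ^ C * 2 ^ (n + 6) * L ^ (n + 6) := by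
    rw [hx2, pow_add]
    calc 2 ^ ((n + 6) * u) * 2 ^ C = (2 ^ u) ^ (n + 6) * 2 ^ C := by
          rw [← pow_mul, mul_comm u]
      _ ≤ (2 * L) ^ (n + 6) * 2 ^ C := Nat.mul_le_mul_right _ (Nat.pow_le_pow_left hu _)
      _ = _ := by rw [mul_pow]; ring
  obtain ⟨D, hD⟩ : ∃ D : ℕ, D = C * 2 ^ n + 2 ^ C * 2 ^ (n + 6) := ⟨_, rfl⟩
  obtain ⟨y, hy⟩ : ∃ y : ℕ, y = (L ^ (e + 2)) ^ n * L ^ (n + 6) + L ^ (n + 6) := ⟨_, rfl⟩
  have b3 : x1 + x2 ≤ D * y := by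
    calc x1 + x2 ≤ C * 2 ^ n * ((L ^ (e + 2)) ^ n * L ^ (n + 6)) +
          2 ^ C * 2 ^ (n + 6) * L ^ (n + 6) := Nat.add_le_add b1 b2
      _ ≤ D * ((L ^ (e + 2)) ^ n * L ^ (n + 6)) + D * L ^ (n + 6) := by
          apply Nat.add_le_add
          · apply Nat.mul_le_mul_right; omega
          · apply Nat.mul_le_mul_right; omega
      _ = D * y := by rw [hy]; ring
  have hDL : D ≤ L := by
    have : C * 2 ^ n ≤ C * 2 ^ (2 * n + 6) :=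
      Nat.mul_le_mul_left _ (Nat.pow_le_pow_right (by norm_num) (by omega))
    omega
  have b4 : x1 + x2 ≤ 2 ^ L := by
    have e1 : (L ^ (e + 2)) ^ n * L ^ (n + 6) ≤ L ^ ((e + 2) * (2 * n + 6) + n + 12) := by
      rw [← pow_mul, ← pow_add]
      apply Nat.pow_le_pow_right (by omega)
      have : (e + 2) * n ≤ (e + 2) * (2 * n + 6) := Nat.mul_le_mul_left _ (by omega)
      omega
    have e2 : L ^ (n + 6) ≤ L ^ ((e + 2) * (2 * n + 6) + n + 12) :=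
      Nat.pow_le_pow_right (by omega) (by omega)
    calc x1 + x2 ≤ D * y := b3
      _ ≤ L * (2 * L ^ ((e + 2) * (2 * n + 6) + n + 12)) := by
          apply Nat.mul_le_mul hDL
          rw [hy]; omega
      _ ≤ L * (L * L ^ ((e + 2) * (2 * n + 6) + n + 12)) := by gcongr
      _ = L ^ ((e + 2) * (2 * n + 6) + n + 14) := by ring
      _ ≤ 2 ^ L := hLp
  have hx1' : 1 < x1 + x2 := by
    have : 2 ^ 1 ≤ x2 := by
      rw [hx2]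
      apply Nat.pow_le_pow_right (by norm_num)
      have : 6 * 1 ≤ (n + 6) * u := Nat.mul_le_mul (by omega) hu1
      omega
    omega
  obtain ⟨K0, hK0⟩ : ∃ K0 : ℕ, K0 = Nat.clog 2 (x1 + x2) := ⟨_, rfl⟩
  have hK0l : x1 + x2 ≤ 2 ^ K0 := by rw [hK0]; exact Nat.le_pow_clog (by norm_num) _
  have hK0u : 2 ^ K0 ≤ 2 * (x1 + x2) := by
    have h1 := Nat.pow_pred_clog_lt_self (b := 2) (by norm_num) hx1'
    have h2 : 0 < K0 := by rw [hK0]; exact Nat.clog_pos (by norm_num) hx1'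
    have h3 : 2 ^ K0 = 2 * 2 ^ (K0 - 1) := by
      rw [← pow_succ']; congr 1; omega
    rw [h3]
    have : 2 ^ (K0 - 1) < x1 + x2 := by rw [hK0]; exact h1
    omega
  refine ⟨K0, ?_, ?_, ?_, ?_, ?_⟩
  · have h1 : 2 ^ ((n + 6) * u + C) ≤ 2 ^ K0 := by rw [← hx2]; omega
    exact (Nat.pow_le_pow_iff_right (by norm_num)).mp h1
  · rw [hK0]
    exact Nat.clog_le_of_le_pow b4
  · rw [← hx1]; omega
  · rw [hm]
    calc C * (L ^ (e + 2) + 1) ^ (2 * n + 6)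
        ≤ C * (2 * L ^ (e + 2)) ^ (2 * n + 6) := by gcongr
      _ = (C * 2 ^ (2 * n + 6)) * (L ^ (e + 2)) ^ (2 * n + 6) := by rw [mul_pow]; ring
      _ ≤ L * (L ^ (e + 2)) ^ (2 * n + 6) := by gcongr
      _ = L ^ ((e + 2) * (2 * n + 6) + 1) := by rw [← pow_mul, pow_succ, mul_comm]
      _ ≤ L ^ ((e + 2) * (2 * n + 6) + n + 14) := Nat.pow_le_pow_right (by omega) (by omega)
      _ ≤ 2 ^ L := hLp
      _ ≤ q := hLq
  · calc 2 ^ K0 ≤ 2 * (x1 + x2) := hK0u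
      _ ≤ 2 * (D * y) := Nat.mul_le_mul_left _ b3
      _ = _ := by rw [hD, hy]; ring

lemma num_realX (n e : ℕ) (L u K C D : ℝ) (hL : 1 ≤ L) (hu : 1 ≤ u) (he : 5 ≤ e)
    (hC : 0 ≤ C) (hD : 0 ≤ D) (m : ℝ) (hm : m = L ^ (e + 2)) (hK0 : 0 ≤ K)
    (hK : K ≤ D * (m ^ n * L ^ (n + 6) + L ^ (n + 6)))
    (θ : ℝ) (hθ : θ = 1 / (m ^ (n + 1) * L ^ n * u ^ 2)) :
    C * (m ^ (n + 2) * L ^ (n + 1) * u ^ 2 + m ^ (n + 1) * L ^ e * L ^ (n + 3) +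
      θ * (m * L ^ e * (L ^ (2 * n + 6) * ((L ^ 2) ^ 2 * m ^ (2 * n)) +
        L ^ (n + 2) * (L ^ 2 * m ^ n * K)) + 1) +
      m * L / θ) ≤ C * (5 + D) * (m ^ (n + 2) * L ^ (n + 1) * u ^ 2 + L ^ (e + n + 10)) := by
  have hL0 : 0 < L := by linarith
  have hm1 : 1 ≤ m := by rw [hm]; exact one_le_pow₀ hL
  have hm0 : 0 < m := by linarith
  obtain ⟨X, hX⟩ : ∃ X : ℝ, X = m ^ (n + 2) * L ^ (n + 1) := ⟨_, rfl⟩
  obtain ⟨Z, hZ⟩ : ∃ Z : ℝ, Z = L ^ (e + n + 10) := ⟨_, rfl⟩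
  have hX1 : 1 ≤ X := by
    rw [hX]; exact one_le_mul_of_one_le_of_one_le (one_le_pow₀ hm1) (one_le_pow₀ hL)
  have hZ0 : 0 ≤ Z := by rw [hZ]; positivity
  have hu2 : 1 ≤ u ^ 2 := one_le_pow₀ hu
  have hu0 : 0 < u ^ 2 := by linarith
  have hXu : X ≤ X * u ^ 2 := le_mul_of_one_le_right (by linarith) hu2
  have hme : m = L ^ e * L ^ 2 := by rw [hm, pow_add]
  -- second term
  have t2 : m ^ (n + 1) * L ^ e * L ^ (n + 3) = X := by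
    rw [hX]
    calc m ^ (n + 1) * L ^ e * L ^ (n + 3) = m ^ (n + 1) * (L ^ e * L ^ 2) * L ^ (n + 1) := by ring
      _ = m ^ (n + 1) * m * L ^ (n + 1) := by rw [← hme]
      _ = _ := by ring
  -- fourth term
  have hθ0 : 0 < θ := by rw [hθ]; positivity
  have t4 : m * L / θ = X * u ^ 2 := by
    rw [hθ, hX]; field_simp; ring
  have hθm : θ * (m ^ (n + 1) * L ^ n) ≤ 1 := by
    have : θ * (m ^ (n + 1) * L ^ n) = 1 / u ^ 2 := by rw [hθ]; field_simp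
    rw [this, div_le_one hu0]
    exact hu2
  have hθm' : θ * m ^ (n + 1) ≤ 1 := by
    refine le_trans ?_ hθm
    apply mul_le_mul_of_nonneg_left _ hθ0.le
    exact le_mul_of_one_le_right (by positivity) (one_le_pow₀ hL)
  have hθ1 : θ ≤ 1 := by
    refine le_trans ?_ hθm'
    exact le_mul_of_one_le_right hθ0.le (one_le_pow₀ hm1)
  -- third term
  have hLm : L ^ (e + 9) ≤ m ^ 2 := by
    rw [hm, ← pow_mul]; exact pow_le_pow_right₀ hL (by omega)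
  have a1 : θ * (m * L ^ e * (L ^ (2 * n + 6) * ((L ^ 2) ^ 2 * m ^ (2 * n)))) ≤ X := by
    calc θ * (m * L ^ e * (L ^ (2 * n + 6) * ((L ^ 2) ^ 2 * m ^ (2 * n))))
        = (θ * (m ^ (n + 1) * L ^ n)) * (m ^ n * L ^ (n + 1) * L ^ (e + 9)) := by
          have : m ^ (2 * n) = m ^ n * m ^ n := by rw [← pow_add]; congr 1; ring
          rw [this]; ring
      _ ≤ 1 * (m ^ n * L ^ (n + 1) * m ^ 2) := by gcongr
      _ = X := by rw [hX]; ring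
  have a2 : θ * (m * L ^ e * (L ^ (n + 2) * (L ^ 2 * m ^ n * K))) ≤ D * (X + Z) := by
    calc θ * (m * L ^ e * (L ^ (n + 2) * (L ^ 2 * m ^ n * K)))
        = (θ * m ^ (n + 1)) * L ^ (e + n + 4) * K := by ring
      _ ≤ (θ * m ^ (n + 1)) * L ^ (e + n + 4) * (D * (m ^ n * L ^ (n + 6) + L ^ (n + 6))) := by
          gcongr
      _ = D * ((θ * (m ^ (n + 1) * L ^ n)) * (m ^ n * L ^ (n + 1) * L ^ (e + 9)) +
            (θ * (m ^ (n + 1) * L ^ n)) * L ^ (e + n + 10)) := by ring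
      _ ≤ D * (1 * (m ^ n * L ^ (n + 1) * m ^ 2) + 1 * L ^ (e + n + 10)) := by gcongr
      _ = D * (X + Z) := by rw [hX, hZ]; ring
  have a3 : θ * (m * L ^ e * (L ^ (2 * n + 6) * ((L ^ 2) ^ 2 * m ^ (2 * n)) +
        L ^ (n + 2) * (L ^ 2 * m ^ n * K)) + 1) ≤ X + D * (X + Z) + 1 := by
    rw [mul_add, mul_add, mul_add, mul_one]
    linarith
  have hfin : X * u ^ 2 + X + (X + D * (X + Z) + 1) + X * u ^ 2 ≤ (5 + D) * (X * u ^ 2 + Z) := by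
    have f1 : D * X ≤ D * (X * u ^ 2) := mul_le_mul_of_nonneg_left hXu hD
    nlinarith
  rw [← hZ]
  calc C * (m ^ (n + 2) * L ^ (n + 1) * u ^ 2 + m ^ (n + 1) * L ^ e * L ^ (n + 3) +
      θ * (m * L ^ e * (L ^ (2 * n + 6) * ((L ^ 2) ^ 2 * m ^ (2 * n)) +
        L ^ (n + 2) * (L ^ 2 * m ^ n * K)) + 1) + m * L / θ)
      ≤ C * (X * u ^ 2 + X + (X + D * (X + Z) + 1) + X * u ^ 2) := by
        apply mul_le_mul_of_nonneg_left _ hC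
        rw [t2, t4, ← hX]; linarith
    _ ≤ C * ((5 + D) * (X * u ^ 2 + Z)) := mul_le_mul_of_nonneg_left hfin hC
    _ = _ := by rw [hX]; ring

theorem stage (h : St_Y18) (n e : ℕ) (he : 5 ≤ e) : Stage n e := by
  obtain ⟨C, hC⟩ := h n
  obtain ⟨N, hN⟩ := Pool.Agent.Y496.SD.Num.ev_pow ((e + 2) * (2 * n + 6) + n + 14)
  obtain ⟨N1, hN1⟩ : ∃ N1 : ℕ, N1 = N + (C * 2 ^ (2 * n + 6) + 2 ^ C * 2 ^ (n + 6)) + 2 :=
    ⟨_, rfl⟩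
  obtain ⟨D, hD⟩ : ∃ D : ℕ, D = 2 * (C * 2 ^ n + 2 ^ C * 2 ^ (n + 6)) := ⟨_, rfl⟩
  refine ⟨C * (5 + D) + C + 2 ^ N1, fun q hq hs hCq c hc => ?_⟩
  have hq0 : q ≠ 0 := hq.out.ne_zero
  have hLN : N1 ≤ La q := by
    unfold La
    apply Nat.le_log_of_pow_le (by norm_num)
    have : 0 ≤ C * (5 + D) + C := Nat.zero_le _
    omega
  have hL2 : 2 ≤ La q := by omega
  have hLq : 2 ^ La q ≤ q := Nat.pow_log_le_self 2 hq0
  have hCq1 : C ≤ q := by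
    have : 0 ≤ 2 ^ N1 := Nat.zero_le _
    have : 0 ≤ C * (5 + D) := Nat.zero_le _
    omega
  have hu : 2 ^ uu q ≤ 2 * La q := by
    unfold uu
    rw [pow_succ, mul_comm]
    exact Nat.mul_le_mul_left 2 (Nat.pow_log_le_self 2 (by omega))
  have hu1' : 1 ≤ uu q := by unfold uu; omega
  obtain ⟨K0, ca, cb, cc, cd, hK0u⟩ := factsX n e C N1 (La q) (uu q) q hLN (by omega)
    (by omega) hLq hu1' (hN (La q) (by omega)) hu
  have hLr : (1:ℝ) ≤ (La q:ℝ) := by exact_mod_cast (by omega : 1 ≤ La q)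
  have hL0r : (0:ℝ) < (La q:ℝ) := by linarith
  have hu1 : (1:ℝ) ≤ (uu q : ℝ) := by exact_mod_cast hu1'
  obtain ⟨θ, hθ⟩ : ∃ θ : ℝ, θ = 1 / (((La q:ℝ) ^ (e + 2)) ^ (n + 1) * (La q:ℝ) ^ n *
    (uu q : ℝ) ^ 2) := ⟨_, rfl⟩
  have hu0 : (0:ℝ) < (uu q : ℝ) := by linarith
  have hθ0 : 0 < θ := by
    rw [hθ]
    exact one_div_pos.2 (mul_pos (mul_pos (pow_pos (pow_pos hL0r _) _) (pow_pos hL0r _))
      (pow_pos hu0 _))
  have hLpos : 0 < La q := by omega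
  obtain ⟨ω, hω, hb⟩ := hC q hs hCq1 (La q ^ e) (La q ^ 2) c hc (Nat.pow_pos hLpos)
    (Nat.pow_pos hLpos) K0 ca cb cc cd θ hθ0
  refine ⟨ω, hω, fun X Y hX hY => ?_⟩
  refine (hb X Y hX hY).trans ?_
  have hKr : ((2:ℝ) ^ K0) ≤ (D:ℝ) * (((La q:ℝ) ^ (e + 2)) ^ n * (La q:ℝ) ^ (n + 6) +
      (La q:ℝ) ^ (n + 6)) := by
    rw [hD]
    exact_mod_cast hK0u
  have key := num_realX n e (La q:ℝ) (uu q : ℝ) ((2:ℝ) ^ K0) (C:ℝ) (D:ℝ) hLr hu1 he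
    (Nat.cast_nonneg _) (Nat.cast_nonneg _) ((La q:ℝ) ^ (e + 2)) rfl (by positivity) hKr θ hθ
  have hcast : ((La q ^ e * La q ^ 2 : ℕ) : ℝ) = (La q:ℝ) ^ (e + 2) := by
    rw [← pow_add]; push_cast; rfl
  have hcast1 : ((La q ^ e : ℕ) : ℝ) = (La q:ℝ) ^ e := by push_cast; rfl
  have hcast2 : ((La q ^ 2 : ℕ) : ℝ) = (La q:ℝ) ^ 2 := by push_cast; rfl
  rw [hcast, hcast1, hcast2]
  refine key.trans ?_
  apply mul_le_mul_of_nonneg_right _ (add_nonneg (mul_nonneg (mul_nonneg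
    (pow_nonneg (pow_nonneg hL0r.le _) _) (pow_nonneg hL0r.le _)) (sq_nonneg _))
    (pow_nonneg hL0r.le _))
  push_cast
  have : (0:ℝ) ≤ 2 ^ N1 := by positivity
  have : (0:ℝ) ≤ C := Nat.cast_nonneg _
  linarith

end Pool.Agent.R329.SX
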